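import Pool.Agent.Work.MP_db9399_exp.Interface
import Pool.Agent.Work.MP_db9399_exp_helper38.Base

/-!
# Block TASK of THEOREM EXP, definitions (helper75)
-/

set_option autoImplicit false

namespace Pool.Agent.Work.MP_db9399_exp.helper75

open Finset Classical
open Pool.Agent.Work.MP_db9399_all (nb mis)
open Pool.Agent.Work.MP_db9399_qr (cov PEC ins sd PMat W0 imb ZQ Good)
open _root_.MP_db9399_co

universe u

section ctx
variable {m r : ℕ} {V : Type u} [Fintype V] {k d : ℕ} {G : SimpleGraph V} {U : Finset V}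
  {F : V → Finset (Fin k)} (X : Ctx m r k d G U F) (I : Ins X)

/-- the vertices to be covered in the task -/
noncomputable def W (a : Fin k ⊕ Fin 4) : Finset V :=
  match a with
  | Sum.inl b => if b ∈ X.Ga ∪ X.Pe then W0 X.R U F X.c I.t b else ∅
  | Sum.inr j => Wq X j

/-- the larger side -/
noncomputable def sg (a : Fin k ⊕ Fin 4) : Bool := decide (0 ≤ imb X.side (W X I a))

/-- the two cells of the side `s` which can be touched by the inside edges of the task -/
noncomputable def tc (a : Fin k ⊕ Fin 4) (s : Bool) : ZMod (2 * m + 1) × ZMod (2 * m + 1) :=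
  match a with
  | Sum.inl b => if b ∈ X.Pe then (if s = true then ((X.ty b).1, (X.ty b).2.1) else
      ((X.ty b).2.2.1, (X.ty b).2.2.2)) else (1, 1)
  | Sum.inr _ => (1, 1)

/-- a third cell -/
def fr {m : ℕ} (c1 c2 : ZMod (2 * m + 1)) : ZMod (2 * m + 1) :=
  if 0 ≠ c1 ∧ 0 ≠ c2 then 0 else if 1 ≠ c1 ∧ 1 ≠ c2 then 1 else 2

/-- the task of a colour of `Ga` -/
def isG (a : Fin k ⊕ Fin 4) : Prop := ∃ b ∈ X.Ga, a = Sum.inl b

/-- an actual task -/
def isT (a : Fin k ⊕ Fin 4) : Prop := ∀ b, a = Sum.inl b → b ∈ X.Ga ∪ X.Pe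

/-- the cell in which the missed vertices are chosen -/
noncomputable def kap (a : Fin k ⊕ Fin 4) : ZMod (2 * m + 1) :=
  match a with
  | Sum.inl b => if b ∈ X.Ga then (if sg X I (Sum.inl b) = true then X.gi b else X.gj b) else
      fr (tc X (Sum.inl b) (sg X I (Sum.inl b))).1 (tc X (Sum.inl b) (sg X I (Sum.inl b))).2
  | Sum.inr j => fr (tc X (Sum.inr j) (sg X I (Sum.inr j))).1
      (tc X (Sum.inr j) (sg X I (Sum.inr j))).2

/-- number of missed vertices -/
noncomputable def zz (a : Fin k ⊕ Fin 4) : ℕ := (imb X.side (W X I a)).natAbs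

/-- candidates for missed vertices -/
noncomputable def Cand (a : Fin k ⊕ Fin 4) : Finset V :=
  univ.filter (fun v => X.side v = sg X I a ∧ X.cell v = kap X I a ∧ v ∉ U ∧ X.c v ∈ X.Ga ∧
    (∀ b, a = Sum.inl b → X.c v ≠ b) ∧ ∀ b ∈ X.Ga, a = Sum.inl b → v ∉ cov X.R I.t b)

end ctx

/-- Part 1 of TASK: the loads (helper46). -/
def Stmt_ZB : Prop :=
  ∀ {m r : ℕ} {V : Type u} [Fintype V] {k d : ℕ} {G : SimpleGraph V} {U : Finset V}
    {F : V → Finset (Fin k)} (X : Ctx m r k d G U F) (I : Ins X) (t : Fin k ⊕ Fin 4),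
    1 ≤ (Cand X I t).card ∧
    ∑ t' ∈ univ.filter (fun t' => ¬ Disjoint (Cand X I t') (Cand X I t)), zz X I t' ≤
      (Cand X I t).card

end Pool.Agent.Work.MP_db9399_exp.helper75
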