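import Pool.Agent.Work.MP_db9399_exp_helper75.T4

/-!
# Block TASK of THEOREM EXP (helper75)
-/

set_option autoImplicit false
set_option linter.unusedSectionVars false
set_option linter.unusedVariables false

namespace Pool.Agent.Work.MP_db9399_exp.helper75

open Finset Classical
open Pool.Agent.Work.MP_db9399_all (nb mis)
open Pool.Agent.Work.MP_db9399_qr (cov PEC ins sd PMat W0 imb ZQ Good)
open _root_.MP_db9399_co

universe u

section ctx
variable {m r : ℕ} {V : Type u} [Fintype V] {k d : ℕ} {G : SimpleGraph V} {U : Finset V}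
  {F : V → Finset (Fin k)} {X : Ctx m r k d G U F} {I : Ins X}

/-! ### Balance -/

theorem balance {Z : Fin k ⊕ Fin 4 → Finset V} {t : Fin k ⊕ Fin 4} (hT : isT X t)
    (hZ : Z t ⊆ Cand X I t) (hZc : (Z t).card = zz X I t) :
    ((W X I t \ Z t) ∩ sd X.side true).card = ((W X I t \ Z t) ∩ sd X.side false).card := by
  have hZW : Z t ⊆ W X I t := hZ.trans (cand_sub hT)
  have hZs : Z t ⊆ sd X.side (sg X I t) := by
    intro v hv
    have := hZ hv
    simp only [Cand, Finset.mem_filter, Finset.mem_univ, true_and] at this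
    simp only [sd, Finset.mem_filter, Finset.mem_univ, true_and]
    exact this.1
  have h1 : ∀ s, ((W X I t \ Z t) ∩ sd X.side s).card + (Z t ∩ sd X.side s).card =
      (W X I t ∩ sd X.side s).card := by
    intro s
    rw [← Finset.card_union_of_disjoint]
    · congr 1
      ext v
      have h2 := @hZW v
      simp only [Finset.mem_union, Finset.mem_inter, Finset.mem_sdiff]
      tauto
    · rw [Finset.disjoint_left]
      intro v hv hv'
      simp only [Finset.mem_inter, Finset.mem_sdiff] at hv hv'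
      exact hv.1.2 hv'.1
  have h2 : (Z t ∩ sd X.side (sg X I t)).card = (Z t).card := by
    rw [Finset.inter_eq_left.2 hZs]
  have h3 : (Z t ∩ sd X.side (!(sg X I t))).card = 0 := by
    rw [Finset.card_eq_zero, Finset.eq_empty_iff_forall_notMem]
    intro v hv
    have h4 := hZs (Finset.mem_inter.1 hv).1
    have h5 := (Finset.mem_inter.1 hv).2
    simp only [sd, Finset.mem_filter, Finset.mem_univ, true_and] at h4 h5
    rw [h4] at h5
    cases hs : sg X I t <;> rw [hs] at h5 <;> simp at h5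
  have h4 := h1 true
  have h5 := h1 false
  have h6 : sg X I t = decide (0 ≤ imb X.side (W X I t)) := rfl
  have h7 : (zz X I t : ℤ) = |imb X.side (W X I t)| := by
    unfold zz
    rw [Int.natCast_natAbs]
  have h8 : imb X.side (W X I t) = ((W X I t ∩ sd X.side true).card : ℤ) -
      ((W X I t ∩ sd X.side false).card : ℤ) := rfl
  rw [← hZc] at h7
  by_cases hp : 0 ≤ imb X.side (W X I t)
  · rw [abs_of_nonneg hp] at h7
    have h9 : sg X I t = true := by rw [h6]; simp [hp]
    rw [h9] at h2 h3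
    simp only [Bool.not_true] at h3
    omega
  · rw [abs_of_neg (not_le.1 hp)] at h7
    have h9 : sg X I t = false := by rw [h6]; simp [hp]
    rw [h9] at h2 h3
    simp only [Bool.not_false] at h3
    omega

/-- matchings from the relation -/
theorem PMat_IsM {M : Finset (V × V)} {A B : Finset V} (hM : PMat M A B)
    (hs : ∀ e ∈ M, X.side e.1 = true ∧ X.side e.2 = false) : Lin.IsM M := by
  intro e he f hf hef
  obtain ⟨h1, h2, h3⟩ := hM
  rcases hef with h | h | h | h
  · obtain ⟨g, _, hg⟩ := h2 e.1 (h1 e he).1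
    exact (hg e ⟨he, rfl⟩).trans (hg f ⟨hf, h.symm⟩).symm
  · have a1 := (hs e he).1
    have a2 := (hs f hf).2
    rw [h, a2] at a1
    exact absurd a1 (by simp)
  · have a1 := (hs e he).2
    have a2 := (hs f hf).1
    rw [h, a2] at a1
    exact absurd a1 (by simp)
  · obtain ⟨g, _, hg⟩ := h3 e.2 (h1 e he).2
    exact (hg e ⟨he, rfl⟩).trans (hg f ⟨hf, h.symm⟩).symm

theorem PMat_cov {M : Finset (V × V)} {A : Finset V}
    (hM : PMat M (A ∩ sd X.side true) (A ∩ sd X.side false)) (v : V) :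
    (∃ e ∈ M, e.1 = v ∨ e.2 = v) ↔ v ∈ A := by
  obtain ⟨h1, h2, h3⟩ := hM
  constructor
  · rintro ⟨e, he, h | h⟩
    · rw [← h]; exact (Finset.mem_inter.1 (h1 e he).1).1
    · rw [← h]; exact (Finset.mem_inter.1 (h1 e he).2).1
  · intro hv
    cases hs : X.side v with
    | true =>
      obtain ⟨e, he, _⟩ := h2 v (Finset.mem_inter.2 ⟨hv, by simp [sd, hs]⟩)
      exact ⟨e, he.1, Or.inl he.2⟩
    | false =>
      obtain ⟨e, he, _⟩ := h3 v (Finset.mem_inter.2 ⟨hv, by simp [sd, hs]⟩)
      exact ⟨e, he.1, Or.inr he.2⟩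

/-! ### Sizes of unions of atoms -/

theorem cls_card (P : Finset (Atom m r)) : P.card * X.N ≤ (cls U X.at' P).card ∧
    (cls U X.at' P).card ≤ P.card * (X.N + 1) := by
  have h1 : (cls U X.at' P).card = ∑ a ∈ P, (cls U X.at' {a}).card := by
    rw [Finset.card_eq_sum_card_fiberwise (f := X.at') (t := P)]
    · refine Finset.sum_congr rfl fun a ha => ?_
      congr 1
      ext w
      simp only [cls, Finset.mem_filter, Finset.mem_univ, true_and, Finset.mem_singleton]
      constructor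
      · rintro ⟨⟨h1, h2⟩, h3⟩
        exact ⟨h1, h3⟩
      · rintro ⟨h1, h3⟩
        exact ⟨⟨h1, h3 ▸ ha⟩, h3⟩
    · intro w hw
      have := Finset.mem_coe.1 hw
      simp only [cls, Finset.mem_filter] at this
      exact this.2.2
  rw [h1]
  constructor
  · have := Finset.card_nsmul_le_sum P (fun a => (cls U X.at' {a}).card) X.N
      (fun a _ => (X.atN a).1)
    simpa using this
  · have := Finset.sum_le_card_nsmul P (fun a => (cls U X.at' {a}).card) (X.N + 1)
      (fun a _ => (X.atN a).2)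
    simpa using this

theorem cls_le {P Q : Finset (Atom m r)} (h : P.card = Q.card) :
    ((cls U X.at' P).card : ℝ) ≤ (1 + X.g / 2) * (cls U X.at' Q).card := by
  have h1 := (cls_card (X := X) P).2
  have h2 := (cls_card (X := X) Q).1
  obtain ⟨hN, -, -⟩ := helper38.num_N X
  have hM := helper38.num_M X
  have hR : (1 : ℝ) ≤ 2 * (r : ℝ) + 1 := by
    have : (0 : ℝ) ≤ r := Nat.cast_nonneg r
    linarith
  obtain ⟨-, -, n3, n4, -, n6, -, -, -, -, -, -, -, -, -, n16⟩ := nums X
  have hM0 : (0 : ℝ) < 2 * (m : ℝ) + 1 := by positivity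
  have hgM : (10 : ℝ) ^ 5 ≤ X.g * (2 * (m : ℝ) + 1) := by
    have := X.mbig
    have h3 : X.g ^ 2 * (2 * (m : ℝ) + 1) ≤ X.g * (2 * (m : ℝ) + 1) := by
      apply mul_le_mul_of_nonneg_right _ hM0.le
      nlinarith
    linarith
  have hgN : 2 ≤ X.g * X.N := by
    have h3 : X.g * (10 ^ 4 * ((2 * (m : ℝ) + 1) * (2 * (r : ℝ) + 1))) ≤ X.g * X.N :=
      mul_le_mul_of_nonneg_left hN n3.le
    have h4 : X.g * (2 * (m : ℝ) + 1) ≤ X.g * (2 * (m : ℝ) + 1) * (2 * (r : ℝ) + 1) := by
      have : 0 ≤ X.g * (2 * (m : ℝ) + 1) := by positivity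
      nlinarith
    nlinarith
  have h1' : ((cls U X.at' P).card : ℝ) ≤ P.card * (X.N + 1) := by exact_mod_cast h1
  have h2' : (Q.card : ℝ) * X.N ≤ ((cls U X.at' Q).card : ℝ) := by exact_mod_cast h2
  rw [h] at h1'
  have h3 : (Q.card : ℝ) * (X.N + 1) ≤ (1 + X.g / 2) * (Q.card * X.N) := by
    have : (0 : ℝ) ≤ Q.card := Nat.cast_nonneg _
    nlinarith
  have h4 : (1 + X.g / 2) * ((Q.card : ℝ) * X.N) ≤ (1 + X.g / 2) * (cls U X.at' Q).card :=
    mul_le_mul_of_nonneg_left h2' (by linarith)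
  linarith

/-- one step: the perfect matching for the task `t` -/
theorem step (hH : Stmt_HALLX.{u}) {τ : V → V → Fin 3}
    (hτ : ∀ v w, X.side v ≠ X.side w → τ v w = τ w v)
    (hlow : ∀ v κ, ((((nbc X v κ).filter (fun w => τ v w ≠ 0)).card : ℝ) ≤ yy X / 16) ∧
      yy X / 32 - 2 * ((2 * r + 1) * X.dl * d) - 5 ≤
        (((nbc X v κ).filter (fun w => τ v w = 1)).card : ℝ) ∧
      yy X / 32 - 2 * ((2 * r + 1) * X.dl * d) - 5 ≤
        (((nbc X v κ).filter (fun w => τ v w = 2)).card : ℝ))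
    {Z : Fin k ⊕ Fin 4 → Finset V} (hZ : ∀ t, Z t ⊆ Cand X I t)
    (hZc : ∀ t, (Z t).card = zz X I t) (t : Fin k ⊕ Fin 4)
    (Mo : Fin k ⊕ Fin 4 → Finset (V × V)) (hMo : ∀ t, Mo t = ∅ ∨ PP X I τ Z t (Mo t)) :
    ∃ M : Finset (V × V), PP X I τ Z t M ∧ ∀ t', t' ≠ t → Disjoint M (Mo t') := by
  obtain ⟨n1, n2, n3, n4, n5, n6, n7, n8, n9, n10, n11, n12, n13, n14, n15, n16⟩ := nums X
  by_cases hT : isT X t
  swap
  · have hW : W X I t = ∅ := by
      simp only [isT, not_forall] at hT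
      obtain ⟨b, hb, hb'⟩ := hT
      subst hb
      simp only [W, if_neg hb']
    refine ⟨∅, ⟨fun e he => absurd he (Finset.notMem_empty _), ?_⟩, fun t' _ =>
      Finset.disjoint_empty_left _⟩
    rw [hW]
    simp only [Finset.empty_sdiff, Finset.empty_inter]
    refine ⟨fun e he => absurd he (Finset.notMem_empty _), fun x hx =>
      absurd hx (Finset.notMem_empty _), fun x hx => absurd hx (Finset.notMem_empty _)⟩
  have hbal := balance hT (hZ t) (hZc t)
  have hM0 : (0 : ℝ) < 2 * (m : ℝ) + 1 := by positivity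
  have hR0 : (0 : ℝ) < 2 * (r : ℝ) + 1 := by positivity
  have hgy0 : 0 < X.g * yy X := lt_of_lt_of_le (by norm_num) n6
  have hy0 : 0 < yy X := (pos_iff_pos_of_mul_pos hgy0).1 n3
  have hyd : yy X * (2 * (m : ℝ) + 1) = X.g * d := by
    unfold yy
    field_simp
  have hd0 : (0 : ℝ) < d := by
    have h1 : 0 < X.g * d := by rw [← hyd]; positivity
    exact (pos_iff_pos_of_mul_pos h1).1 n3
  have hgd : (10 : ℝ) ^ 9 ≤ X.g * d := by
    have h1 : X.g * yy X ≤ yy X := by nlinarith
    have h2 : yy X ≤ yy X * (2 * (m : ℝ) + 1) := by nlinarith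
    linarith
  set q : ℝ := ((CC X t true).card : ℝ) * d / (2 * (2 * m + 1) * (2 * r + 1)) with hq
  set z : ℝ := if isG X t then yy X / 100 else (d : ℝ) / 8 with hz
  have hCCpos : (0 : ℝ) < ((CC X t true).card : ℝ) := by
    exact_mod_cast Finset.card_pos.2 (CC_nonempty (X := X) t true)
  have hq0 : 0 < q := by rw [hq]; positivity
  have hz0 : 0 < z := by
    rw [hz]
    split_ifs
    · positivity
    · positivity
  have hqO : ¬ isG X t → (d : ℝ) / 4 ≤ q := by
    intro ht
    have h3 := (CC_card_O (X := X) ht true).1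
    rw [hq]
    calc (d : ℝ) / 4 = ((2 * (m : ℝ) + 1) * ((2 * (r : ℝ) + 1) / 2)) * d /
        (2 * (2 * m + 1) * (2 * r + 1)) := by field_simp; ring
      _ ≤ _ := by
        apply div_le_div_of_nonneg_right _ (by positivity)
        exact mul_le_mul_of_nonneg_right h3 hd0.le
  have hqG : isG X t → X.g / 2 * q = yy X / 4 := by
    rintro ⟨b, hb, rfl⟩
    rw [hq, CC_card_G hb]
    unfold yy
    field_simp
    ring
  -- (A)
  have hA : ∀ v, ¬ Ex X t v → v ∈ W X I t \ Z t →
      (((nb G v ∩ cls U X.at' (CC X t (!X.side v))) \ TT X I τ Z Mo t v).card : ℝ) ≤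
        X.g / 2 * q := by
    intro v hE hv
    by_cases ht : isG X t
    · rw [hqG ht]
      obtain ⟨b, hb, rfl⟩ := ht
      have hi : X.idl b v := by
        by_contra hni
        apply hE
        refine ⟨?_, fun h => absurd ⟨b, hb, rfl⟩ h⟩
        intro b' hb' _
        rw [← Sum.inl.inj hb']
        exact hni
      refine deg_idle hτ hMo hb ?_ (fun v κ => (hlow v κ).1) v hi
      rw [hZc]
      have h1 := abs_le.1 (I.imb2 b hb)
      have h2 : zz X I (Sum.inl b) ≤ 2 := by
        simp only [zz, W, if_pos (Finset.mem_union_left _ hb : b ∈ X.Ga ∪ X.Pe)]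
        omega
      exact_mod_cast h2
    · refine (deg_other hτ hMo hZ ht hT v).trans ?_
      have := hqO ht
      nlinarith
  -- (B)
  have hB : ∀ v, Ex X t v → z ≤ ((TT X I τ Z Mo t v).card : ℝ) := by
    intro v hE
    by_cases ht : isG X t
    · rw [hz, if_pos ht]
      obtain ⟨b, hb, rfl⟩ := ht
      refine deg_exc hτ hMo hb ?_ (fun v κ s => ?_) v (hE.1 b rfl hb)
      · rw [hZc]
        have h1 := abs_le.1 (I.imb2 b hb)
        have h2 : zz X I (Sum.inl b) ≤ 2 := by
          simp only [zz, W, if_pos (Finset.mem_union_left _ hb : b ∈ X.Ga ∪ X.Pe)]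
          omega
        exact_mod_cast h2
      · cases s with
        | true => exact (hlow v κ).2.1
        | false => exact (hlow v κ).2.2
    · rw [hz, if_neg ht]
      exact deg_other_U hτ hMo hZ ht hT v
  -- (C)
  have hC : ∀ v, (((W X I t \ Z t).filter
      (fun w => Ex X t w ∧ X.side w ≠ X.side v ∧ G.Adj v w)).card : ℝ) ≤ X.g / 2 * z := by
    intro v
    have h1 := deg_E (X := X) (I := I) (Z := Z) t v
    by_cases ht : isG X t
    · rw [hz, if_pos ht]
      have h2 := h1.1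
      have h3 : X.g / 2 * (yy X / 100) = X.g * yy X / 200 := by ring
      rw [h3]
      linarith
    · rw [hz, if_neg ht]
      have h2 := h1.2 ht
      have h3 : X.g / 2 * ((d : ℝ) / 8) = X.g * d / 16 := by ring
      rw [h3]
      linarith
  obtain ⟨Rl, hRl⟩ : ∃ Rl : V → V → Prop, ∀ x y, Rl x y ↔ (Al X τ t x y ∧ X.side x = true ∧
      X.side y = false ∧ ¬ ∃ t', t' ≠ t ∧ Us Mo t' x y) := ⟨_, fun _ _ => Iff.rfl⟩
  set Xs := (W X I t \ Z t) ∩ sd X.side true with hXs
  set Ys := (W X I t \ Z t) ∩ sd X.side false with hYs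
  have hXm : ∀ x, x ∈ Xs ↔ x ∈ W X I t \ Z t ∧ X.side x = true := by
    intro x
    rw [hXs, Finset.mem_inter]
    simp [sd]
  have hYm : ∀ x, x ∈ Ys ↔ x ∈ W X I t \ Z t ∧ X.side x = false := by
    intro x
    rw [hYs, Finset.mem_inter]
    simp [sd]
  have hTx : ∀ x, X.side x = true → ∀ w ∈ TT X I τ Z Mo t x,
      w ∈ Ys.filter (fun y => ¬ Ex X t y) ∧ Rl x w := by
    intro x hx w hw
    simp only [TT, Finset.mem_filter] at hw
    obtain ⟨h1, h2, h3, h4, h5⟩ := hw
    have hsw : X.side w = false := by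
      rw [hx] at h3
      simpa using h3
    exact ⟨Finset.mem_filter.2 ⟨(hYm w).2 ⟨h1, hsw⟩, h2⟩, (hRl _ _).2 ⟨h4, hx, hsw, h5⟩⟩
  have hTy : ∀ y, X.side y = false → ∀ w ∈ TT X I τ Z Mo t y,
      w ∈ Xs.filter (fun y => ¬ Ex X t y) ∧ Rl w y := by
    intro y hy w hw
    simp only [TT, Finset.mem_filter] at hw
    obtain ⟨h1, h2, h3, h4, h5⟩ := hw
    have hsw : X.side w = true := by
      rw [hy] at h3
      simpa using h3
    refine ⟨Finset.mem_filter.2 ⟨(hXm w).2 ⟨h1, hsw⟩, h2⟩,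
      (hRl _ _).2 ⟨Al_symm hτ h4, hsw, hy, ?_⟩⟩
    rintro ⟨t', ht', hus⟩
    exact h5 ⟨t', ht', Or.symm hus⟩
  have hfin : (∃ M : Finset (V × V), (∀ e ∈ M, Rl e.1 e.2) ∧ PMat M Xs Ys) →
      ∃ M : Finset (V × V), PP X I τ Z t M ∧ ∀ t', t' ≠ t → Disjoint M (Mo t') := by
    rintro ⟨M, hM1, hM2⟩
    have hM1 := fun e he => (hRl _ _).1 (hM1 e he)
    refine ⟨M, ⟨fun e he => ⟨(hM1 e he).1, (hM1 e he).2.1, (hM1 e he).2.2.1⟩, hM2⟩, ?_⟩
    intro t' ht'
    rw [Finset.disjoint_left]
    intro e he he'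
    exact (hM1 e he).2.2.2 ⟨t', ht', Or.inl he'⟩
  apply hfin
  have hPX : Xs.filter (fun y => ¬ Ex X t y) ∪ Xs.filter (fun y => Ex X t y) = Xs := by
    ext x
    rw [Finset.mem_union, Finset.mem_filter, Finset.mem_filter]
    tauto
  have hPY : Ys.filter (fun y => ¬ Ex X t y) ∪ Ys.filter (fun y => Ex X t y) = Ys := by
    ext x
    rw [Finset.mem_union, Finset.mem_filter, Finset.mem_filter]
    tauto
  have hFI1 : FI G q X.g (cls U X.at' (CC X t true)) (cls U X.at' (CC X t false)) :=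
    X.fi _ _ (CC_card_eq t) (CC_nonempty t true)
  have hFI2 : FI G q X.g (cls U X.at' (CC X t false)) (cls U X.at' (CC X t true)) := by
    have := X.fi _ _ (CC_card_eq (X := X) t).symm (CC_nonempty t false)
    rw [← CC_card_eq t] at this
    exact this
  have hmain := hH G q X.g z (cls U X.at' (CC X t true)) (cls U X.at' (CC X t false))
    (Xs.filter (fun y => ¬ Ex X t y)) (Xs.filter (fun y => Ex X t y))
    (Ys.filter (fun y => ¬ Ex X t y)) (Ys.filter (fun y => Ex X t y)) Rl hq0 n3 (by linarith) hz0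
    hFI1 hFI2 (cls_le (CC_card_eq t).symm) (cls_le (CC_card_eq t)) ?_ ?_ ?_ ?_ ?_ ?_ ?_ ?_ ?_ ?_ ?_
  · rw [hPX, hPY] at hmain
    exact hmain
  · intro x hx
    rw [Finset.mem_filter, hXm] at hx
    have := W_CC (X := X) (I := I) (Finset.mem_sdiff.1 hx.1.1).1 hx.2
    rw [hx.1.2] at this
    exact this
  · intro x hx
    rw [Finset.mem_filter, hYm] at hx
    have := W_CC (X := X) (I := I) (Finset.mem_sdiff.1 hx.1.1).1 hx.2
    rw [hx.1.2] at this
    exact this
  · rw [Finset.disjoint_left]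
    intro x hx hx'
    exact (Finset.mem_filter.1 hx).2 (Finset.mem_filter.1 hx').2
  · rw [Finset.disjoint_left]
    intro x hx hx'
    exact (Finset.mem_filter.1 hx).2 (Finset.mem_filter.1 hx').2
  · rw [hPX, hPY]
    exact hbal
  · intro x hx
    rw [Finset.mem_filter, hXm] at hx
    refine le_trans ?_ (hA x hx.2 hx.1.1)
    rw [hx.1.2]
    have : ((nb G x ∩ cls U X.at' (CC X t false)).filter
        (fun y => ¬ (y ∈ Ys.filter (fun y => ¬ Ex X t y) ∧ Rl x y))).card ≤
        ((nb G x ∩ cls U X.at' (CC X t (!true))) \ TT X I τ Z Mo t x).card := by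
      refine Finset.card_le_card fun y hy => ?_
      rw [Finset.mem_filter] at hy
      rw [Finset.mem_sdiff]
      exact ⟨hy.1, fun hyT => hy.2 (hTx x hx.1.2 y hyT)⟩
    exact_mod_cast this
  · intro y hy
    rw [Finset.mem_filter, hYm] at hy
    refine le_trans ?_ (hA y hy.2 hy.1.1)
    rw [hy.1.2]
    have : ((nb G y ∩ cls U X.at' (CC X t true)).filter
        (fun x => ¬ (x ∈ Xs.filter (fun y => ¬ Ex X t y) ∧ Rl x y))).card ≤
        ((nb G y ∩ cls U X.at' (CC X t (!false))) \ TT X I τ Z Mo t y).card := by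
      refine Finset.card_le_card fun x hx => ?_
      rw [Finset.mem_filter] at hx
      rw [Finset.mem_sdiff]
      exact ⟨hx.1, fun hxT => hx.2 (hTy y hy.1.2 x hxT)⟩
    exact_mod_cast this
  · intro x hx
    rw [Finset.mem_filter, hXm] at hx
    refine (hB x hx.2).trans ?_
    have : (TT X I τ Z Mo t x).card ≤
        ((Ys.filter (fun y => ¬ Ex X t y)).filter (fun y => Rl x y)).card := by
      refine Finset.card_le_card fun y hy => ?_
      rw [Finset.mem_filter]
      exact hTx x hx.1.2 y hy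
    exact_mod_cast this
  · intro y hy
    rw [Finset.mem_filter, hYm] at hy
    refine le_trans ?_ (hC y)
    have : ((Xs.filter (fun y => Ex X t y)).filter (fun x => Rl x y)).card ≤
        ((W X I t \ Z t).filter (fun w => Ex X t w ∧ X.side w ≠ X.side y ∧ G.Adj y w)).card := by
      refine Finset.card_le_card fun x hx => ?_
      rw [Finset.mem_filter, Finset.mem_filter, hXm] at hx
      rw [Finset.mem_filter]
      refine ⟨hx.1.1.1, hx.1.2, ?_, ((hRl _ _).1 hx.2).1.1.symm⟩
      rw [hx.1.1.2, hy.1.2]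
      simp
    exact_mod_cast this
  · intro y hy
    rw [Finset.mem_filter, hYm] at hy
    refine (hB y hy.2).trans ?_
    have : (TT X I τ Z Mo t y).card ≤
        ((Xs.filter (fun y => ¬ Ex X t y)).filter (fun x => Rl x y)).card := by
      refine Finset.card_le_card fun x hx => ?_
      rw [Finset.mem_filter]
      exact hTy y hy.1.2 x hx
    exact_mod_cast this
  · intro x hx
    rw [Finset.mem_filter, hXm] at hx
    refine le_trans ?_ (hC x)
    have : ((Ys.filter (fun y => Ex X t y)).filter (fun y => Rl x y)).card ≤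
        ((W X I t \ Z t).filter (fun w => Ex X t w ∧ X.side w ≠ X.side x ∧ G.Adj x w)).card := by
      refine Finset.card_le_card fun y hy => ?_
      rw [Finset.mem_filter, Finset.mem_filter, hYm] at hy
      rw [Finset.mem_filter]
      refine ⟨hy.1.1.1, hy.1.2, ?_, ((hRl _ _).1 hy.2).1.1⟩
      rw [hy.1.1.2, hx.1.2]
      simp
    exact_mod_cast this

end ctx

/-- Block TASK. -/
theorem stmt_TASK (hS : Pool.Agent.Work.MP_db9399_qr.Stmt_SPLIT.{u}) (hH : Stmt_HALLX.{u})
    (hQ : Pool.Agent.Work.MP_db9399_qr.Stmt_SEQ.{u})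
    (hZS : Pool.Agent.Work.MP_db9399_qr.Stmt_ZSEL.{u}) (hZB : Stmt_ZB.{u}) : Stmt_TASK.{u} := by
  intro m r V _ k d G U F X I
  obtain ⟨D, e, τ, h1, h2, h3, hτ, k0, k1, k2⟩ := types X hS
  have hlow := low X h1 h2 h3 k0 k1 k2
  have hbound : ∀ t, ∑ t' ∈ univ.filter (fun t' => ¬ Disjoint (Cand X I t') (Cand X I t)),
      zz X I t' ≤ (Cand X I t).card := fun t => (hZB X I t).2
  have hle : ∀ t, zz X I t ≤ (Cand X I t).card := by
    intro t
    refine le_trans ?_ (hbound t)
    have h : t ∈ univ.filter (fun t' => ¬ Disjoint (Cand X I t') (Cand X I t)) := by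
      rw [Finset.mem_filter]
      refine ⟨Finset.mem_univ _, ?_⟩
      have h8 : 0 < (Cand X I t).card := (hZB X I t).1
      obtain ⟨v, hv⟩ := Finset.card_pos.1 h8
      exact Finset.not_disjoint_iff.2 ⟨v, hv, hv⟩
    exact Finset.single_le_sum (f := fun t' => zz X I t') (fun _ _ => Nat.zero_le _) h
  obtain ⟨Z, hZ, hZd⟩ := hZS V (Fin k ⊕ Fin 4) (Cand X I) (zz X I) hle (fun t => by
    convert hbound t)
  obtain ⟨M, hM, hMd⟩ := hQ (V × V) (Fin k ⊕ Fin 4) (PP X I τ Z) (fun t Mo hMo =>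
    step hH hτ hlow (fun t => (hZ t).1) (fun t => (hZ t).2) t Mo hMo)
  have hW : ∀ b ∈ X.Ga ∪ X.Pe, W X I (Sum.inl b) = W0 X.R U F X.c I.t b := by
    intro b hb
    simp only [W, if_pos hb]
  refine ⟨⟨Z, M, ?_, ?_, hZd, hMd, ?_, ?_, ?_, ?_, ?_⟩⟩
  · intro a
    rw [Finset.disjoint_left]
    intro v hv
    have := (hZ a).1 hv
    simp only [Cand, Finset.mem_filter] at this
    exact this.2.2.2.1
  · intro a v hv
    have := (hZ a).1 hv
    simp only [Cand, Finset.mem_filter] at this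
    exact this.2.2.2.2.1
  · intro a e he
    have := (hM a).1 e he
    exact ⟨this.2.1, this.2.2, this.1.1⟩
  · intro a
    exact PMat_IsM (X := X) (hM a).2 (fun e he => ((hM a).1 e he).2)
  · intro b hb
    rw [Finset.eq_empty_iff_forall_notMem]
    intro e he
    have h5 := ((hM (Sum.inl b)).2.1 e he).1
    have h6 : W X I (Sum.inl b) = ∅ := by simp only [W, if_neg hb]
    rw [h6] at h5
    simp at h5
  · intro b hb v
    rw [PMat_cov (hM (Sum.inl b)).2 v, hW b hb, Finset.mem_sdiff]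
  · intro j v
    rw [PMat_cov (hM (Sum.inr j)).2 v, Finset.mem_sdiff]
    rfl

end Pool.Agent.Work.MP_db9399_exp.helper75
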