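import Pool.Agent.Work.MP_db9399_exp_helper75.TDefs

/-!
# Block TASK of THEOREM EXP, types of the cross edges (helper75)
-/

set_option autoImplicit false
set_option linter.unusedSectionVars false
set_option linter.unusedVariables false

namespace Pool.Agent.Work.MP_db9399_exp.helper75

open Finset Classical
open Pool.Agent.Work.MP_db9399_all (nb mis)
open Pool.Agent.Work.MP_db9399_qr (cov PEC ins sd PMat W0 imb ZQ Good)
open _root_.MP_db9399_co

universe u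

theorem mem_nb {V : Type u} [Fintype V] {G : SimpleGraph V} {v w : V} :
    w ∈ nb G v ↔ G.Adj v w := by
  simp [nb]

/-! ### Numbers -/

section num
variable {m r : ℕ} {V : Type u} [Fintype V] {k d : ℕ} {G : SimpleGraph V} {U : Finset V}
  {F : V → Finset (Fin k)} (X : Ctx m r k d G U F)

/-- the unit `g d / M` -/
noncomputable def yy : ℝ := X.g * d / (2 * (m : ℝ) + 1)

/-- all numerical facts -/
theorem nums : (10 : ℝ) ^ 9 ≤ 2 * (m : ℝ) + 1 ∧ (10 : ℝ) ^ 9 ≤ 2 * (r : ℝ) + 1 ∧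
    0 < X.g ∧ X.g ≤ 1 / 100 ∧ 0 < X.dl ∧
    (10 : ℝ) ^ 9 ≤ X.g * yy X ∧
    (10 : ℝ) ^ 7 * ((d : ℝ) / (2 * (m : ℝ) + 1) ^ 2) ≤ yy X ∧
    (10 : ℝ) ^ 7 * ((d : ℝ) / (2 * (m : ℝ) + 1) ^ 3) ≤ yy X ∧
    (10 : ℝ) ^ 6 * ((2 * (r : ℝ) + 1) * X.dl * d) ≤ X.g * yy X ∧
    (10 : ℝ) ^ 6 * (X.dl * d) ≤ X.g * yy X ∧
    (10 : ℝ) ^ 6 * (8 * (d : ℝ) / (2 * (r : ℝ) + 1)) ≤ X.g * yy X ∧
    (10 : ℝ) ^ 6 * ((d : ℝ) / (2 * (2 * (m : ℝ) + 1) * (2 * (r : ℝ) + 1))) ≤ X.g * yy X ∧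
    (10 : ℝ) ^ 7 * ((2 * (r : ℝ) + 1) * X.u) ≤ yy X ∧
    (2 * (m : ℝ) + 1) * ((2 * (r : ℝ) + 1) * X.u) ≤ (d : ℝ) / (2 * (m : ℝ) + 1) ∧
    (10 : ℝ) ^ 6 * (X.Pe.card : ℝ) ≤ yy X ∧
    (10 : ℝ) ^ 7 * ((d : ℝ) / (2 * (m : ℝ) + 1)) ≤ X.g * d := by
  have hM := helper38.num_M X
  have hR0 := X.rbig
  have hg0 := X.g0
  have hg1 := X.g1
  have hmb := X.mbig
  have hdl0 := X.dl0
  have hdl := X.dlsm
  have hd := helper38.num_d X
  have huhi := X.uhi
  have hPe := X.Pecard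
  set M : ℝ := 2 * (m : ℝ) + 1 with hMd
  set R : ℝ := 2 * (r : ℝ) + 1 with hRd
  have hM0 : 0 < M := lt_of_lt_of_le (by norm_num) hM
  have hM1 : 1 ≤ M := le_trans (by norm_num) hM
  have hM7 : M ≤ M ^ 7 := by
    calc M = M ^ 1 := (pow_one M).symm
      _ ≤ M ^ 7 := pow_le_pow_right₀ hM1 (by norm_num)
  have hR : (10 : ℝ) ^ 9 ≤ R := by linarith
  have hR0' : 0 < R := lt_of_lt_of_le (by norm_num) hR
  have hR1 : 1 ≤ R := le_trans (by norm_num) hR
  have hd0 : (0 : ℝ) ≤ d := Nat.cast_nonneg d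
  have hgM : (10 : ℝ) ^ 7 ≤ X.g * M := by
    have h1 : X.g ^ 2 * M = X.g * (X.g * M) := by ring
    rw [h1] at hmb
    have h2 : X.g * (X.g * M) ≤ 1 / 100 * (X.g * M) :=
      mul_le_mul_of_nonneg_right hg1 (by positivity)
    linarith
  have hy : yy X = X.g * d / M := rfl
  have hyM : yy X * M = X.g * d := by rw [hy]; field_simp
  have hy0 : 0 ≤ yy X := by rw [hy]; positivity
  -- d / M ^ 2
  have hdM : (0 : ℝ) ≤ d / M := by positivity
  have hy' : yy X = X.g * M * (d / M ^ 2) := by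
    rw [hy]; field_simp
  have hdM2 : (10 : ℝ) ^ 7 * (d / M ^ 2) ≤ yy X := by
    rw [hy']
    exact mul_le_mul_of_nonneg_right hgM (by positivity)
  have hdM3 : (d : ℝ) / M ^ 3 ≤ d / M ^ 2 := by
    apply div_le_div_of_nonneg_left hd0 (by positivity)
    exact pow_le_pow_right₀ hM1 (by norm_num)
  have hgy : X.g * yy X = X.g ^ 2 * M * (d / M ^ 2) := by
    rw [hy]; field_simp
  have hgyl : (10 : ℝ) ^ 5 * (d / M ^ 2) ≤ X.g * yy X := by
    rw [hgy]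
    exact mul_le_mul_of_nonneg_right hmb (by positivity)
  have hdbig : (10 : ℝ) ^ 6 * M ^ 20 ≤ d := by
    refine le_trans ?_ hd
    have : (1 : ℝ) ≤ R ^ 3 := one_le_pow₀ hR1
    have h0 : (0 : ℝ) ≤ 10 ^ 6 * M ^ 20 := by positivity
    calc (10 : ℝ) ^ 6 * M ^ 20 = 10 ^ 6 * M ^ 20 * 1 := by ring
      _ ≤ 10 ^ 6 * M ^ 20 * R ^ 3 := mul_le_mul_of_nonneg_left this h0
  have hdM2' : (10 : ℝ) ^ 4 ≤ d / M ^ 2 := by
    rw [le_div_iff₀ (by positivity)]
    refine le_trans ?_ hdbig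
    have : M ^ 2 ≤ M ^ 20 := pow_le_pow_right₀ hM1 (by norm_num)
    have h0 : (0 : ℝ) ≤ M ^ 2 := by positivity
    calc (10 : ℝ) ^ 4 * M ^ 2 ≤ 10 ^ 6 * M ^ 2 :=
          mul_le_mul_of_nonneg_right (by norm_num) h0
      _ ≤ 10 ^ 6 * M ^ 20 := mul_le_mul_of_nonneg_left this (by norm_num)
  have hRdl : (10 : ℝ) ^ 6 * (R * X.dl * d) ≤ X.g * yy X := by
    rw [hgy]
    have h1 : (10 : ℝ) ^ 6 * (R * X.dl) * M ≤ X.g ^ 2 := by
      refine le_trans ?_ hdl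
      have h2 : M ≤ M ^ 12 := by
        calc M = M ^ 1 := (pow_one M).symm
          _ ≤ M ^ 12 := pow_le_pow_right₀ hM1 (by norm_num)
      have h3 : R ≤ R ^ 2 := by
        calc R = R ^ 1 := (pow_one R).symm
          _ ≤ R ^ 2 := pow_le_pow_right₀ hR1 (by norm_num)
      calc (10 : ℝ) ^ 6 * (R * X.dl) * M = X.dl * 10 ^ 6 * (M * R) := by ring
        _ ≤ X.dl * 10 ^ 6 * (M ^ 12 * R ^ 2) := by
          apply mul_le_mul_of_nonneg_left _ (by positivity)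
          exact mul_le_mul h2 h3 hR0'.le (by positivity)
        _ = X.dl * (10 ^ 6 * M ^ 12 * R ^ 2) := by ring
    calc (10 : ℝ) ^ 6 * (R * X.dl * d) = (10 ^ 6 * (R * X.dl) * M) * (d / M) := by field_simp
      _ ≤ X.g ^ 2 * (d / M) := mul_le_mul_of_nonneg_right h1 hdM
      _ = X.g ^ 2 * M * (d / M ^ 2) := by field_simp
  have hgM2 : X.g * (X.g * M) ≥ 10 ^ 5 := by
    have h1 : X.g ^ 2 * M = X.g * (X.g * M) := by ring
    linarith
  have h8R : (10 : ℝ) ^ 6 * (8 * (d : ℝ) / R) ≤ X.g * yy X := by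
    refine le_trans ?_ hgyl
    have h1 : 8 * (d : ℝ) / R ≤ 8 * d / (100 * M ^ 7) :=
      div_le_div_of_nonneg_left (by positivity) (by positivity) hR0
    have h2 : 8 * (d : ℝ) / (100 * M ^ 7) = (d / M ^ 2) * (8 / (100 * M ^ 5)) := by
      field_simp
    have h3 : (8 : ℝ) / (100 * M ^ 5) ≤ 1 / 100 := by
      rw [div_le_div_iff₀ (by positivity) (by norm_num)]
      have : M ≤ M ^ 5 := by
        calc M = M ^ 1 := (pow_one M).symm
          _ ≤ M ^ 5 := pow_le_pow_right₀ hM1 (by norm_num)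
      linarith
    have h4 : 8 * (d : ℝ) / R ≤ (d / M ^ 2) * (1 / 100) := by
      rw [h2] at h1
      exact h1.trans (mul_le_mul_of_nonneg_left h3 (by positivity))
    linarith
  have h2MR : (10 : ℝ) ^ 6 * ((d : ℝ) / (2 * M * R)) ≤ X.g * yy X := by
    refine le_trans (mul_le_mul_of_nonneg_left ?_ (by norm_num)) h8R
    rw [div_le_div_iff₀ (by positivity) hR0']
    have h1 : 0 ≤ (d : ℝ) * R := mul_nonneg hd0 hR0'.le
    calc (d : ℝ) * R = 1 * (d * R) := (one_mul _).symm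
      _ ≤ (16 * M) * (d * R) := mul_le_mul_of_nonneg_right (by linarith) h1
      _ = 8 * d * (2 * M * R) := by ring
  -- u
  have h2m : 2 * (m : ℝ) = M - 1 := by rw [hMd]; ring
  have hu0 : (0 : ℝ) ≤ R * X.u := mul_nonneg hR0'.le (Nat.cast_nonneg _)
  have hu1 : 2 * M * R * ((M - 1) * X.u) ≤ d := by
    rw [← h2m]
    refine huhi.trans ?_
    have : 0 ≤ 1 / (2 * M ^ 7) := by positivity
    calc (1 - 1 / (2 * M ^ 7)) * (d : ℝ) ≤ 1 * d :=
          mul_le_mul_of_nonneg_right (by linarith) hd0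
      _ = d := one_mul _
  have hu2 : M * M * (R * X.u) ≤ d := by
    have h9 : M ≤ 2 * (M - 1) := by linarith
    calc M * M * (R * X.u) ≤ M * (2 * (M - 1)) * (R * X.u) := by
          apply mul_le_mul_of_nonneg_right _ hu0
          apply mul_le_mul_of_nonneg_left h9 hM0.le
      _ = 2 * M * R * ((M - 1) * X.u) := by ring
      _ ≤ d := hu1
  have hu3 : R * X.u ≤ d / M ^ 2 := by
    rw [le_div_iff₀ (by positivity)]
    refine le_trans (le_of_eq ?_) hu2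
    ring
  have hPe2 : (X.Pe.card : ℝ) ≤ 5 * (d / M ^ 2) / M := by
    refine hPe.trans (le_of_eq ?_)
    field_simp
  have hPe3 : 5 * ((d : ℝ) / M ^ 2) / M ≤ d / M ^ 2 := by
    rw [div_le_iff₀ hM0, mul_comm]
    have : (0 : ℝ) ≤ d / M ^ 2 := by positivity
    exact mul_le_mul_of_nonneg_left (by linarith) this
  refine ⟨hM, hR, hg0, hg1, hdl0, ?_, hdM2, ?_, hRdl, ?_, h8R, h2MR, ?_, ?_, ?_, ?_⟩
  · linarith
  · linarith
  · refine le_trans ?_ hRdl
    have h0 : 0 ≤ X.dl * d := by positivity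
    have h1 : X.dl * d ≤ R * X.dl * d := by
      calc X.dl * d = 1 * (X.dl * d) := (one_mul _).symm
        _ ≤ R * (X.dl * d) := mul_le_mul_of_nonneg_right hR1 h0
        _ = R * X.dl * d := by ring
    linarith
  · linarith
  · rw [le_div_iff₀ hM0]
    linarith
  · have : (0 : ℝ) ≤ d / M ^ 2 := by positivity
    linarith
  · have h1 : (10 : ℝ) ^ 7 * (d / M) ≤ X.g * M * (d / M) := mul_le_mul_of_nonneg_right hgM hdM
    have h2 : X.g * M * (d / M) = X.g * d := by field_simp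
    linarith

end num

end Pool.Agent.Work.MP_db9399_exp.helper75
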