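import Pool.Agent.Work.MP_db9399_exp_helper75.T1

/-!
# Block TASK of THEOREM EXP, types of the cross edges (helper75)
-/

set_option autoImplicit false
set_option linter.unusedSectionVars false
set_option linter.unusedVariables false

namespace Pool.Agent.Work.MP_db9399_exp.helper75

open Finset Classical
open Pool.Agent.Work.MP_db9399_all (nb mis)
open Pool.Agent.Work.MP_db9399_qr (cov PEC ins sd PMat W0 imb ZQ Good)
open _root_.MP_db9399_co

universe u

section ctx
variable {m r : ℕ} {V : Type u} [Fintype V] {k d : ℕ} {G : SimpleGraph V} {U : Finset V}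
  {F : V → Finset (Fin k)} (X : Ctx m r k d G U F)

/-- cross edges between the cell `i` of the side `true` and the cell `j` of the side `false` -/
def Rij (i j : ZMod (2 * m + 1)) : SimpleGraph V where
  Adj v w := G.Adj v w ∧ ((X.side v = true ∧ X.cell v = i ∧ X.side w = false ∧ X.cell w = j) ∨
    (X.side w = true ∧ X.cell w = i ∧ X.side v = false ∧ X.cell v = j))
  symm := ⟨fun _ _ h => ⟨h.1.symm, h.2.symm⟩⟩
  loopless := ⟨fun _ h => G.loopless.irrefl _ h.1⟩

/-- neighbours on the other side in the cell `κ` -/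
noncomputable def nbc (v : V) (κ : ZMod (2 * m + 1)) : Finset V :=
  (nb G v).filter (fun w => X.side w = !X.side v ∧ X.cell w = κ)

/-- atoms of the side `s` with cell in `S` and subcell in `T` -/
noncomputable def ats (s : Bool) (S : Finset (ZMod (2 * m + 1))) (T : Finset (ZMod (2 * r + 1))) :
    Finset (Atom m r) :=
  ({s} : Finset Bool) ×ˢ (S ×ˢ T)

theorem mem_ats {s : Bool} {S : Finset (ZMod (2 * m + 1))} {T : Finset (ZMod (2 * r + 1))}
    {a : Atom m r} : a ∈ ats s S T ↔ a.1 = s ∧ a.2.1 ∈ S ∧ a.2.2 ∈ T := by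
  unfold ats
  rw [Finset.mem_product, Finset.mem_product, Finset.mem_singleton]

theorem card_ats (s : Bool) (S : Finset (ZMod (2 * m + 1))) (T : Finset (ZMod (2 * r + 1))) :
    (ats s S T).card = S.card * T.card := by
  simp [ats, Finset.card_product]

/-- the number of neighbours in a union of atoms -/
theorem nb_cls (v : V) (P : Finset (Atom m r)) :
    |((nb G v ∩ cls U X.at' P).card : ℝ) -
      P.card * ((d : ℝ) / (2 * (2 * m + 1) * (2 * r + 1)))| ≤ P.card * (X.dl * d) := by
  have h1 : (nb G v ∩ cls U X.at' P).card = ∑ a ∈ P, (nb G v ∩ cls U X.at' {a}).card := by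
    rw [Finset.card_eq_sum_card_fiberwise (f := X.at') (t := P)]
    · refine Finset.sum_congr rfl fun a ha => ?_
      congr 1
      ext w
      simp only [cls, Finset.mem_filter, Finset.mem_inter, Finset.mem_univ, true_and,
        Finset.mem_singleton]
      constructor
      · rintro ⟨⟨h1, h2, h3⟩, h4⟩
        exact ⟨h1, h2, h4⟩
      · rintro ⟨h1, h2, h3⟩
        exact ⟨⟨h1, h2, h3 ▸ ha⟩, h3⟩
    · intro w hw
      have := (Finset.mem_inter.1 (Finset.mem_coe.1 hw)).2
      simp only [cls, Finset.mem_filter] at this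
      exact this.2.2
  rw [h1]
  push_cast
  have h2 : (∑ a ∈ P, ((nb G v ∩ cls U X.at' {a}).card : ℝ)) -
      P.card * ((d : ℝ) / (2 * (2 * m + 1) * (2 * r + 1))) =
      ∑ a ∈ P, (((nb G v ∩ cls U X.at' {a}).card : ℝ) -
        (d : ℝ) / (2 * (2 * m + 1) * (2 * r + 1))) := by
    rw [Finset.sum_sub_distrib, Finset.sum_const, nsmul_eq_mul]
  rw [h2]
  refine (Finset.abs_sum_le_sum_abs _ _).trans ?_
  refine (Finset.sum_le_card_nsmul _ _ (X.dl * d) fun a _ => X.degat v a).trans ?_
  rw [nsmul_eq_mul]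

include X in
theorem U_nb (v : V) (S : Finset V) (hS : S ⊆ nb G v) : ((S ∩ U).card : ℝ) ≤ 2 := by
  have : (S ∩ U).card ≤ 2 := by
    refine (Finset.card_le_card fun w hw => ?_).trans (X.U2 v)
    simp only [Finset.mem_inter] at hw
    simp only [Finset.mem_filter, Finset.mem_univ, true_and]
    exact ⟨hw.2, mem_nb.1 (hS hw.1)⟩
  exact_mod_cast this

theorem RM : (((univ : Finset (ZMod (2 * r + 1))).card : ℕ) : ℝ) = 2 * (r : ℝ) + 1 := by
  rw [Finset.card_univ, ZMod.card]
  push_cast
  ring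

theorem nbc_card (v : V) (κ : ZMod (2 * m + 1)) :
    (d : ℝ) / (2 * (2 * m + 1)) - (2 * r + 1) * X.dl * d ≤ ((nbc X v κ).card : ℝ) ∧
    ((nbc X v κ).card : ℝ) ≤ (d : ℝ) / (2 * (2 * m + 1)) + (2 * r + 1) * X.dl * d + 2 := by
  have h := abs_le.1 (nb_cls X v (ats (!X.side v) {κ} univ))
  have hc : ((ats (r := r) (!X.side v) {κ} univ).card : ℝ) = 2 * (r : ℝ) + 1 := by
    rw [card_ats, Finset.card_singleton, one_mul, RM]
  have hR0 : (0 : ℝ) < 2 * (r : ℝ) + 1 := by positivity
  have hM0 : (0 : ℝ) < 2 * (m : ℝ) + 1 := by positivity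
  rw [hc] at h
  have h1 : (2 * (r : ℝ) + 1) * ((d : ℝ) / (2 * (2 * m + 1) * (2 * r + 1))) =
      (d : ℝ) / (2 * (2 * m + 1)) := by
    field_simp
  rw [h1] at h
  have hsub : nb G v ∩ cls U X.at' (ats (!X.side v) {κ} univ) ⊆ nbc X v κ := by
    intro w hw
    rw [Finset.mem_inter] at hw
    simp only [cls, Finset.mem_filter, Finset.mem_univ, true_and, mem_ats, Finset.mem_singleton,
      and_true, Ctx.at'] at hw
    simp only [nbc, Finset.mem_filter]
    exact ⟨hw.1, hw.2.2.1, hw.2.2.2⟩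
  have hsub2 : nbc X v κ ⊆ (nb G v ∩ cls U X.at' (ats (!X.side v) {κ} univ)) ∪
      (nbc X v κ ∩ U) := by
    intro w hw
    by_cases hU : w ∈ U
    · exact Finset.mem_union_right _ (Finset.mem_inter.2 ⟨hw, hU⟩)
    · refine Finset.mem_union_left _ ?_
      simp only [nbc, Finset.mem_filter] at hw
      rw [Finset.mem_inter]
      simp only [cls, Finset.mem_filter, Finset.mem_univ, true_and, mem_ats,
        Finset.mem_singleton, and_true, Ctx.at']
      exact ⟨hw.1, hU, hw.2.1, hw.2.2⟩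
  have h2 : ((nb G v ∩ cls U X.at' (ats (!X.side v) {κ} univ)).card : ℝ) ≤
      ((nbc X v κ).card : ℝ) := by exact_mod_cast Finset.card_le_card hsub
  have h3 : ((nbc X v κ).card : ℝ) ≤
      ((nb G v ∩ cls U X.at' (ats (!X.side v) {κ} univ)).card : ℝ) +
        ((nbc X v κ ∩ U).card : ℝ) := by
    exact_mod_cast (Finset.card_le_card hsub2).trans (Finset.card_union_le _ _)
  have h4 := U_nb X v (nbc X v κ) (Finset.filter_subset _ _)
  constructor
  · nlinarith [h.1]
  · nlinarith [h.2]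

theorem types (hS : Pool.Agent.Work.MP_db9399_qr.Stmt_SPLIT.{u}) :
    ∃ (D e : ℕ) (τ : V → V → Fin 3),
    (D : ℝ) ≤ (d : ℝ) / (2 * (2 * m + 1)) + (2 * r + 1) * X.dl * d + 2 ∧
    (e : ℝ) ≤ yy X / 32 ∧ yy X / 32 < (e : ℝ) + 1 ∧
    (∀ v w, X.side v ≠ X.side w → τ v w = τ w v) ∧
    (∀ v κ, ((nbc X v κ).filter (fun w => τ v w = 0)).card + 2 * e ≤ D + 1) ∧
    (∀ v κ, ((nbc X v κ).filter (fun w => τ v w = 1)).card ≤ e) ∧
    (∀ v κ, ((nbc X v κ).filter (fun w => τ v w = 2)).card ≤ e) := by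
  obtain ⟨n1, n2, n3, n4, n5, n6, -, -, n9, -, -, -, -, -, -, -⟩ := nums X
  set D := ⌊(d : ℝ) / (2 * (2 * m + 1)) + (2 * r + 1) * X.dl * d + 2⌋₊ with hD
  set e := ⌊yy X / 32⌋₊ with he
  have hM0 : (0 : ℝ) < 2 * (m : ℝ) + 1 := by positivity
  have hnn : (0 : ℝ) ≤ (d : ℝ) / (2 * (2 * m + 1)) + (2 * r + 1) * X.dl * d + 2 := by positivity
  have hy0 : 0 ≤ yy X := by
    have : 0 < X.g * yy X := lt_of_lt_of_le (by norm_num) n6
    nlinarith [(pos_iff_pos_of_mul_pos this).1 n3]
  have hDle : (D : ℝ) ≤ (d : ℝ) / (2 * (2 * m + 1)) + (2 * r + 1) * X.dl * d + 2 :=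
    Nat.floor_le hnn
  have hele : (e : ℝ) ≤ yy X / 32 := Nat.floor_le (by positivity)
  have hyd : yy X ≤ (d : ℝ) / (2 * (2 * m + 1)) := by
    unfold yy
    rw [div_le_div_iff₀ hM0 (by positivity)]
    have hd0 : (0 : ℝ) ≤ d := Nat.cast_nonneg d
    have : X.g * d ≤ 1 / 2 * d := mul_le_mul_of_nonneg_right (by linarith) hd0
    nlinarith
  have h2e : 2 * e ≤ D + 1 := by
    have h1 : (d : ℝ) / (2 * (2 * m + 1)) + (2 * r + 1) * X.dl * d + 2 < (D : ℝ) + 1 :=
      Nat.lt_floor_add_one _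
    have h2 : (0 : ℝ) ≤ (2 * r + 1) * X.dl * d := by positivity
    have h3 : 2 * (e : ℝ) ≤ (D : ℝ) + 1 := by linarith
    exact_mod_cast h3
  have h1 : ∀ i j : ZMod (2 * m + 1), ∃ τ : V → V → Fin 3, (∀ v w, τ v w = τ w v) ∧
      ∀ v t, ((nb (Rij X i j) v).filter (fun w => τ v w = t)).card ≤
        (![D + 1 - 2 * e, e, e] : Fin 3 → ℕ) t := by
    intro i j
    obtain ⟨τ, hτ1, hτ2⟩ := hS (Rij X i j) D (Fin 3) (![D + 1 - 2 * e, e, e] : Fin 3 → ℕ) (by
      intro v
      have hsub : nb (Rij X i j) v ⊆ nbc X v (if X.side v = true then j else i) := by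
        intro w hw
        rw [mem_nb] at hw
        obtain ⟨h1, h2⟩ := hw
        unfold nbc
        rw [Finset.mem_filter, mem_nb]
        refine ⟨h1, ?_⟩
        rcases h2 with ⟨a1, a2, a3, a4⟩ | ⟨a1, a2, a3, a4⟩
        · rw [a1, a3, a4]; simp
        · rw [a3, a1, a2]; simp
      have h2 := (nbc_card X v (if X.side v = true then j else i)).2
      have h3 : ((nb (Rij X i j) v).card : ℝ) ≤
          (d : ℝ) / (2 * (2 * m + 1)) + (2 * r + 1) * X.dl * d + 2 := by
        have : ((nb (Rij X i j) v).card : ℝ) ≤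
            ((nbc X v (if X.side v = true then j else i)).card : ℝ) := by
          exact_mod_cast Finset.card_le_card hsub
        linarith
      exact Nat.le_floor h3) (by
      simp only [Fin.sum_univ_three, Matrix.cons_val_zero, Matrix.cons_val_one,
        Matrix.cons_val]
      omega)
    refine ⟨τ, hτ1, fun v t => ?_⟩
    have h5 := hτ2 v t
    convert h5
  choose τ' hτs hτc using h1
  have key : ∀ v κ t, ((nbc X v κ).filter (fun w =>
      (if X.side v = true then τ' (X.cell v) (X.cell w) v w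
        else τ' (X.cell w) (X.cell v) v w) = t)).card ≤
      (![D + 1 - 2 * e, e, e] : Fin 3 → ℕ) t := by
    intro v κ t
    cases hv : X.side v with
    | true =>
      refine (Finset.card_le_card ?_).trans (hτc (X.cell v) κ v t)
      intro w hw
      simp only [nbc, Finset.mem_filter, mem_nb, hv, if_true] at hw ⊢
      obtain ⟨⟨h1, h2, h3⟩, h4⟩ := hw
      rw [h3] at h4
      exact ⟨⟨h1, Or.inl ⟨hv, rfl, by simpa using h2, h3⟩⟩, h4⟩
    | false =>
      refine (Finset.card_le_card ?_).trans (hτc κ (X.cell v) v t)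
      intro w hw
      simp only [nbc, Finset.mem_filter, mem_nb, hv, Bool.false_eq_true, if_false] at hw ⊢
      obtain ⟨⟨h1, h2, h3⟩, h4⟩ := hw
      rw [h3] at h4
      exact ⟨⟨h1, Or.inr ⟨by simpa using h2, h3, hv, rfl⟩⟩, h4⟩
  refine ⟨D, e, fun v w => if X.side v = true then τ' (X.cell v) (X.cell w) v w
    else τ' (X.cell w) (X.cell v) v w, hDle, hele, Nat.lt_floor_add_one _, ?_, ?_, ?_, ?_⟩
  · intro v w hvw
    cases hv : X.side v with
    | true =>
      have hw : X.side w = false := by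
        cases hw : X.side w with
        | true => exact absurd (hv.trans hw.symm) hvw
        | false => rfl
      simp only [hv, hw, if_true, Bool.false_eq_true, if_false]
      exact hτs _ _ _ _
    | false =>
      have hw : X.side w = true := by
        cases hw : X.side w with
        | false => exact absurd (hv.trans hw.symm) hvw
        | true => rfl
      simp only [hv, hw, if_true, Bool.false_eq_true, if_false]
      exact hτs _ _ _ _
  · intro v κ
    have := key v κ 0
    simp only [Matrix.cons_val_zero] at this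
    beta_reduce
    omega
  · intro v κ
    have := key v κ 1
    simpa using this
  · intro v κ
    have := key v κ 2
    simpa using this

/-! ### Lower bounds for the number of edges of each type -/

theorem low {D e : ℕ} {τ : V → V → Fin 3}
    (h1 : (D : ℝ) ≤ (d : ℝ) / (2 * (2 * m + 1)) + (2 * r + 1) * X.dl * d + 2)
    (h2 : (e : ℝ) ≤ yy X / 32) (h3 : yy X / 32 < (e : ℝ) + 1)
    (k0 : ∀ v κ, ((nbc X v κ).filter (fun w => τ v w = 0)).card + 2 * e ≤ D + 1)
    (k1 : ∀ v κ, ((nbc X v κ).filter (fun w => τ v w = 1)).card ≤ e)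
    (k2 : ∀ v κ, ((nbc X v κ).filter (fun w => τ v w = 2)).card ≤ e)
    (v : V) (κ : ZMod (2 * m + 1)) :
    ((((nbc X v κ).filter (fun w => τ v w ≠ 0)).card : ℝ) ≤ yy X / 16) ∧
    yy X / 32 - 2 * ((2 * r + 1) * X.dl * d) - 5 ≤
      (((nbc X v κ).filter (fun w => τ v w = 1)).card : ℝ) ∧
    yy X / 32 - 2 * ((2 * r + 1) * X.dl * d) - 5 ≤
      (((nbc X v κ).filter (fun w => τ v w = 2)).card : ℝ) := by
  have h5 := (nbc_card X v κ).1
  have hsum : (nbc X v κ).card = ((nbc X v κ).filter (fun w => τ v w = 0)).card +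
      ((nbc X v κ).filter (fun w => τ v w = 1)).card +
      ((nbc X v κ).filter (fun w => τ v w = 2)).card := by
    rw [Finset.card_eq_sum_card_fiberwise (f := fun w => τ v w) (t := univ)
      (fun w _ => Finset.mem_univ _), Fin.sum_univ_three]
  have hsumr : ((nbc X v κ).card : ℝ) = (((nbc X v κ).filter (fun w => τ v w = 0)).card : ℝ) +
      (((nbc X v κ).filter (fun w => τ v w = 1)).card : ℝ) +
      (((nbc X v κ).filter (fun w => τ v w = 2)).card : ℝ) := by exact_mod_cast hsum
  have e0 : (((nbc X v κ).filter (fun w => τ v w = 0)).card : ℝ) + 2 * (e : ℝ) ≤ (D : ℝ) + 1 := by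
    exact_mod_cast k0 v κ
  have e1 : (((nbc X v κ).filter (fun w => τ v w = 1)).card : ℝ) ≤ (e : ℝ) := by
    exact_mod_cast k1 v κ
  have e2 : (((nbc X v κ).filter (fun w => τ v w = 2)).card : ℝ) ≤ (e : ℝ) := by
    exact_mod_cast k2 v κ
  have hne : (((nbc X v κ).filter (fun w => τ v w ≠ 0)).card : ℝ) ≤
      (((nbc X v κ).filter (fun w => τ v w = 1)).card : ℝ) +
      (((nbc X v κ).filter (fun w => τ v w = 2)).card : ℝ) := by
    have : (nbc X v κ).filter (fun w => τ v w ≠ 0) ⊆
        ((nbc X v κ).filter (fun w => τ v w = 1)) ∪ ((nbc X v κ).filter (fun w => τ v w = 2)) := by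
      intro w hw
      rw [Finset.mem_filter] at hw
      rw [Finset.mem_union, Finset.mem_filter, Finset.mem_filter]
      have h6 : ∀ x : Fin 3, x ≠ 0 → x = 1 ∨ x = 2 := by decide
      rcases h6 _ hw.2 with h | h
      · exact Or.inl ⟨hw.1, h⟩
      · exact Or.inr ⟨hw.1, h⟩
    exact_mod_cast (Finset.card_le_card this).trans (Finset.card_union_le _ _)
  refine ⟨?_, ?_, ?_⟩
  · linarith
  · linarith
  · linarith

end ctx

end Pool.Agent.Work.MP_db9399_exp.helper75
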