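import Pool.Agent.Work.MP_db9399_exp_helper75.T2

/-!
# Block TASK of THEOREM EXP, degrees (helper75)
-/

set_option autoImplicit false
set_option linter.unusedSectionVars false
set_option linter.unusedVariables false

namespace Pool.Agent.Work.MP_db9399_exp.helper75

open Finset Classical
open Pool.Agent.Work.MP_db9399_all (nb mis)
open Pool.Agent.Work.MP_db9399_qr (cov PEC ins sd PMat W0 imb ZQ Good)
open _root_.MP_db9399_co

universe u

section ctx
variable {m r : ℕ} {V : Type u} [Fintype V] {k d : ℕ} {G : SimpleGraph V} {U : Finset V}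
  {F : V → Finset (Fin k)} (X : Ctx m r k d G U F) (I : Ins X)

/-- exceptional vertices of the task -/
def Ex (t : Fin k ⊕ Fin 4) (v : V) : Prop :=
  (∀ b, t = Sum.inl b → b ∈ X.Ga → ¬ X.idl b v) ∧ (¬ isG X t → v ∈ U)

/-- the atoms of the side `s` used by the task -/
noncomputable def CC (t : Fin k ⊕ Fin 4) (s : Bool) : Finset (Atom m r) :=
  match t with
  | Sum.inl b => if b ∈ X.Ga then ats s {if s = true then X.gi b else X.gj b} univ else
      ats s univ univ
  | Sum.inr j => if j.val % 2 = 0 then ats s univ X.GS else ats s univ univ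

variable {X I}

theorem one_ne_two (X : Ctx m r k d G U F) : (0 : ZMod (2 * m + 1)) ≠ 1 ∧
    (0 : ZMod (2 * m + 1)) ≠ 2 ∧ (1 : ZMod (2 * m + 1)) ≠ 2 := by
  have hm := helper38.num_m X
  have h3 : 3 ≤ 2 * m + 1 := by omega
  haveI : Fact (1 < 2 * m + 1) := ⟨by omega⟩
  haveI : NeZero (2 * m + 1) := ⟨by omega⟩
  have h01 : (0 : ZMod (2 * m + 1)) ≠ 1 := zero_ne_one
  have h02 : (0 : ZMod (2 * m + 1)) ≠ 2 := by
    intro h
    have h4 : ((2 : ℕ) : ZMod (2 * m + 1)) = 0 := by
      push_cast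
      exact h.symm
    rw [ZMod.natCast_eq_zero_iff] at h4
    have := Nat.le_of_dvd (by norm_num) h4
    omega
  refine ⟨h01, h02, ?_⟩
  intro h
  apply h01
  have : (2 : ZMod (2 * m + 1)) = 1 + 1 := by norm_num
  rw [this] at h
  have h5 : (1 : ZMod (2 * m + 1)) + 0 = 1 + 1 := by rw [add_zero]; exact h
  exact add_left_cancel h5

theorem fr_ne (X : Ctx m r k d G U F) (c1 c2 : ZMod (2 * m + 1)) :
    fr c1 c2 ≠ c1 ∧ fr c1 c2 ≠ c2 := by
  obtain ⟨h01, h02, h12⟩ := one_ne_two X
  unfold fr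
  split_ifs with h1 h2
  · exact h1
  · exact h2
  · rw [not_and_or, not_not, not_not] at h1 h2
    rcases h1 with h1 | h1 <;> rcases h2 with h2 | h2
    · exact absurd (h1.trans h2.symm) h01
    · refine ⟨?_, ?_⟩
      · rw [← h1]; exact h02.symm
      · rw [← h2]; exact h12.symm
    · refine ⟨?_, ?_⟩
      · rw [← h2]; exact h12.symm
      · rw [← h1]; exact h02.symm
    · exact absurd (h1.trans h2.symm) h01

theorem Ga_Pe {b : Fin k} (h : b ∈ X.Ga) : b ∉ X.Pe :=
  fun h' => Finset.disjoint_left.1 X.disj h h'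

/-- the colours of the ordinary vertices -/
theorem c_cases {v : V} (hv : v ∉ U) : (X.sub v ∈ X.GS ∧ X.c v ∈ X.Ga) ∨
    (X.sub v ∉ X.GS ∧ X.c v ∉ X.Ga ∪ X.Pe) := by
  have h := X.cP v hv
  by_cases hs : X.sub v ∈ X.GS
  · exact Or.inl ⟨hs, X.PalG _ hs h⟩
  · exact Or.inr ⟨hs, fun h' => Finset.disjoint_left.1 (X.PalL _ hs) h h'⟩

theorem c_Pe {v : V} (hv : v ∉ U) : X.c v ∉ X.Pe := by
  intro h
  rcases c_cases hv with h1 | h1
  · exact Ga_Pe h1.2 h
  · exact h1.2 (Finset.mem_union_right _ h)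

/-- covered by an inside edge of colour `b` -/
theorem cov_cases {b : Fin k} {v : V} (h : v ∈ cov X.R I.t b) :
    b ∈ X.Ga ∨ (b ∈ X.Pe ∧ v ∉ U ∧
      (X.cell v = (tc X (Sum.inl b) (X.side v)).1 ∨ X.cell v = (tc X (Sum.inl b) (X.side v)).2)) := by
  simp only [cov, Finset.mem_filter, Finset.mem_univ, true_and] at h
  obtain ⟨w, hw, hb⟩ := h
  rcases I.tcol v w hw with h1 | ⟨h1, h2, h3, h4⟩
  · left
    rw [hb] at h1
    exact h1
  · right
    rw [hb] at h1 h3 h4
    refine ⟨h1, h2, ?_⟩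
    simp only [tc, if_pos h1]
    cases hs : X.side v with
    | true => simpa using h3 hs
    | false => simpa using h4 hs

theorem memW_G {b : Fin k} (hb : b ∈ X.Ga) {w : V} (hi : X.idl b w) (hc : X.c w ≠ b)
    (hcov : w ∉ cov X.R I.t b) : w ∈ W X I (Sum.inl b) := by
  have h1 : b ∈ X.Ga ∪ X.Pe := Finset.mem_union_left _ hb
  simp only [W, if_pos h1, W0, Finset.mem_filter, Finset.mem_univ, true_and]
  refine ⟨fun h => hc h.2, ?_, hcov⟩
  rw [X.F0 w hi.1]; simp

theorem memW_O {a : Fin k ⊕ Fin 4} (ha : ¬ isG X a) (hT : isT X a) {w : V} (hU : w ∉ U)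
    (h1 : X.cell w ≠ (tc X a (X.side w)).1) (h2 : X.cell w ≠ (tc X a (X.side w)).2)
    (h3 : ∀ j : Fin 4, a = Sum.inr j → j.val % 2 = 0 → X.c w ∈ X.Ga) :
    w ∈ W X I a := by
  cases a with
  | inl b =>
    have hb := hT b rfl
    have hbG : b ∉ X.Ga := fun h => ha ⟨b, h, rfl⟩
    have hbP : b ∈ X.Pe := (Finset.mem_union.1 hb).resolve_left hbG
    simp only [W, if_pos hb, W0, Finset.mem_filter, Finset.mem_univ, true_and]
    refine ⟨fun h => c_Pe hU (h.2 ▸ hbP), ?_, ?_⟩
    · rw [X.F0 w hU]; simp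
    · intro h
      rcases cov_cases h with h3 | h3
      · exact hbG h3
      · rcases h3.2.2 with h4 | h4
        · exact h1 h4
        · exact h2 h4
  | inr j =>
    simp only [W, Wq, ZQ, Finset.mem_univ, true_and, Finset.mem_filter, not_and]
    refine ⟨?_, fun hj => Or.inr (h3 j rfl hj)⟩
    intro _
    rw [X.F0 w hU]
    simp

theorem kap_G {b : Fin k} (hb : b ∈ X.Ga) :
    kap X I (Sum.inl b) = if sg X I (Sum.inl b) = true then X.gi b else X.gj b := by
  simp only [kap, if_pos hb]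

theorem kap_O {a : Fin k ⊕ Fin 4} (ha : ¬ isG X a) :
    kap X I a = fr (tc X a (sg X I a)).1 (tc X a (sg X I a)).2 := by
  cases a with
  | inl b =>
    have hbG : b ∉ X.Ga := fun h => ha ⟨b, h, rfl⟩
    simp only [kap, if_neg hbG]
  | inr j => simp only [kap]

theorem cand_sub {a : Fin k ⊕ Fin 4} (hT : isT X a) : Cand X I a ⊆ W X I a := by
  intro v hv
  simp only [Cand, Finset.mem_filter, Finset.mem_univ, true_and] at hv
  obtain ⟨h1, h2, h3, h4, h5, h6⟩ := hv
  by_cases ha : isG X a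
  · obtain ⟨b, hb, rfl⟩ := ha
    rw [kap_G hb] at h2
    refine memW_G hb ?_ (h5 b rfl) (h6 b hb rfl)
    refine ⟨h3, fun hs => ?_, fun hs => ?_⟩
    · change X.side v = true at hs
      change X.gi b = X.cell v
      rw [← h1, hs, if_pos rfl] at h2
      exact h2.symm
    · change X.side v = false at hs
      change X.gj b = X.cell v
      rw [← h1, hs, if_neg (by simp)] at h2
      exact h2.symm
  · rw [kap_O ha] at h2
    refine memW_O ha hT h3 ?_ ?_ (fun _ _ _ => h4)
    · rw [h1, h2]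
      exact (fr_ne X _ _).1
    · rw [h1, h2]
      exact (fr_ne X _ _).2

/-! ### Admissible and used edges -/

/-- the type of the edges between a non idle vertex on the side `s` and an idle vertex -/
def st (s : Bool) : Fin 3 := if s = true then 1 else 2

theorem st_ne_zero (s : Bool) : st s ≠ 0 := by cases s <;> decide

theorem st_inj {s s' : Bool} (h : st s = st s') : s = s' := by
  revert h
  cases s <;> cases s' <;> decide

variable (X I)

/-- admissible cross edges of the task -/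
def Al (τ : V → V → Fin 3) (a : Fin k ⊕ Fin 4) (v w : V) : Prop :=
  G.Adj v w ∧ X.side v ≠ X.side w ∧ ∀ b ∈ X.Ga, a = Sum.inl b →
    (X.idl b v ∧ X.idl b w ∧ τ v w = 0) ∨ (¬ X.idl b v ∧ X.idl b w ∧ τ v w = st (X.side v)) ∨
    (X.idl b v ∧ ¬ X.idl b w ∧ τ v w = st (X.side w))

/-- the requirement of the task -/
def PP (τ : V → V → Fin 3) (Z : Fin k ⊕ Fin 4 → Finset V) (a : Fin k ⊕ Fin 4)
    (M : Finset (V × V)) : Prop :=
  (∀ e ∈ M, Al X τ a e.1 e.2 ∧ X.side e.1 = true ∧ X.side e.2 = false) ∧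
    PMat M ((W X I a \ Z a) ∩ sd X.side true) ((W X I a \ Z a) ∩ sd X.side false)

/-- the pair is used by the set `Mo a` -/
def Us (Mo : Fin k ⊕ Fin 4 → Finset (V × V)) (a : Fin k ⊕ Fin 4) (v w : V) : Prop :=
  (v, w) ∈ Mo a ∨ (w, v) ∈ Mo a

variable {X I}

theorem Al_symm {τ : V → V → Fin 3} (hτ : ∀ v w, X.side v ≠ X.side w → τ v w = τ w v)
    {a : Fin k ⊕ Fin 4} {v w : V} (h : Al X τ a v w) : Al X τ a w v := by
  obtain ⟨h1, h2, h3⟩ := h
  refine ⟨h1.symm, h2.symm, fun b hb hab => ?_⟩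
  rw [← hτ v w h2]
  rcases h3 b hb hab with h | h | h
  · exact Or.inl ⟨h.2.1, h.1, h.2.2⟩
  · exact Or.inr (Or.inr ⟨h.2.1, h.1, h.2.2⟩)
  · exact Or.inr (Or.inl ⟨h.2.1, h.1, h.2.2⟩)

section used
variable {τ : V → V → Fin 3} (hτ : ∀ v w, X.side v ≠ X.side w → τ v w = τ w v)
  {Z : Fin k ⊕ Fin 4 → Finset V} {Mo : Fin k ⊕ Fin 4 → Finset (V × V)}
  (hMo : ∀ t, Mo t = ∅ ∨ PP X I τ Z t (Mo t))
include hτ hMo

theorem Us_PP {t : Fin k ⊕ Fin 4} {v w : V} (h : Us Mo t v w) : PP X I τ Z t (Mo t) := by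
  rcases hMo t with h1 | h1
  · rcases h with h | h <;> rw [h1] at h <;> exact absurd h (Finset.notMem_empty _)
  · exact h1

theorem Us_Al {t : Fin k ⊕ Fin 4} {v w : V} (h : Us Mo t v w) :
    Al X τ t v w ∧ v ∈ W X I t \ Z t := by
  have h1 := Us_PP hτ hMo h
  rcases h with h | h
  · exact ⟨(h1.1 _ h).1, (Finset.mem_inter.1 (h1.2.1 _ h).1).1⟩
  · exact ⟨Al_symm hτ (h1.1 _ h).1, (Finset.mem_inter.1 (h1.2.1 _ h).2).1⟩

theorem Us_card (t : Fin k ⊕ Fin 4) (v : V) : (univ.filter (fun w => Us Mo t v w)).card ≤ 1 := by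
  rw [Finset.card_le_one]
  intro w hw w' hw'
  simp only [Finset.mem_filter, Finset.mem_univ, true_and] at hw hw'
  have h1 := Us_PP hτ hMo hw
  obtain ⟨hA, hP1, hP2, hP3⟩ := h1
  rcases hw with hw | hw
  · have hv : X.side v = true := (hA _ hw).2.1
    rcases hw' with hw' | hw'
    · obtain ⟨e, _, he2⟩ := hP2 v (hP1 _ hw).1
      have e1 := he2 _ ⟨hw, rfl⟩
      have e2 := he2 _ ⟨hw', rfl⟩
      exact (Prod.ext_iff.1 (e1.trans e2.symm)).2
    · have : X.side v = false := (hA _ hw').2.2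
      rw [hv] at this
      exact absurd this (by simp)
  · have hv : X.side v = false := (hA _ hw).2.2
    rcases hw' with hw' | hw'
    · have : X.side v = true := (hA _ hw').2.1
      rw [hv] at this
      exact absurd this (by simp)
    · obtain ⟨e, _, he2⟩ := hP3 v (hP1 _ hw).2
      have e1 := he2 _ ⟨hw, rfl⟩
      have e2 := he2 _ ⟨hw', rfl⟩
      exact (Prod.ext_iff.1 (e1.trans e2.symm)).1

theorem used_card (t : Fin k ⊕ Fin 4) (v : V) (A : Finset (Fin k)) (S : Finset V)
    (hA : ∀ w ∈ S, ∀ b, Us Mo (Sum.inl b) v w → b ∈ A) :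
    (S.filter (fun w => ∃ t', t' ≠ t ∧ Us Mo t' v w)).card ≤ A.card + 4 := by
  have h1 : S.filter (fun w => ∃ t', t' ≠ t ∧ Us Mo t' v w) ⊆
      (A.disjSum (univ : Finset (Fin 4))).biUnion (fun t' => univ.filter (fun w => Us Mo t' v w)) := by
    intro w hw
    simp only [Finset.mem_filter] at hw
    obtain ⟨hwS, t', _, ht'⟩ := hw
    refine Finset.mem_biUnion.2 ⟨t', ?_, Finset.mem_filter.2 ⟨Finset.mem_univ _, ht'⟩⟩
    rw [Finset.mem_disjSum]
    cases t' with
    | inl b => exact Or.inl ⟨b, hA w hwS b ht', rfl⟩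
    | inr j => exact Or.inr ⟨j, Finset.mem_univ _, rfl⟩
  refine (Finset.card_le_card h1).trans (Finset.card_biUnion_le.trans ?_)
  refine (Finset.sum_le_card_nsmul _ _ 1 fun t' _ => Us_card hτ hMo t' v).trans ?_
  rw [smul_eq_mul, mul_one, Finset.card_disjSum]
  simp

/-- the colours of the tasks using an edge -/
theorem Us_col {b : Fin k} {v w : V} (h : Us Mo (Sum.inl b) v w) :
    (b ∈ X.Ga ∧ v ∉ cov X.R I.t b) ∨ b ∈ X.Pe := by
  have h1 := (Us_Al hτ hMo h).2
  have h2 := (Finset.mem_sdiff.1 h1).1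
  by_cases hb : b ∈ X.Ga ∪ X.Pe
  · rcases Finset.mem_union.1 hb with hbG | hbP
    · left
      simp only [W, if_pos hb, W0, Finset.mem_filter] at h2
      exact ⟨hbG, h2.2.2.2⟩
    · exact Or.inr hbP
  · simp only [W, if_neg hb] at h2
    exact absurd h2 (Finset.notMem_empty _)

end used

/-- good neighbours -/
noncomputable def TT (X : Ctx m r k d G U F) (I : Ins X) (τ : V → V → Fin 3)
    (Z : Fin k ⊕ Fin 4 → Finset V)
    (Mo : Fin k ⊕ Fin 4 → Finset (V × V)) (t : Fin k ⊕ Fin 4) (v : V) : Finset V :=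
  (W X I t \ Z t).filter (fun w => ¬ Ex X t w ∧ X.side w ≠ X.side v ∧ Al X τ t v w ∧
    ¬ ∃ t', t' ≠ t ∧ Us Mo t' v w)

/-- groups of colours -/
theorem grp_card (i j : ZMod (2 * m + 1)) :
    (X.Ga.filter (fun b => X.gi b = i ∧ X.gj b = j)).card ≤ (2 * r + 1) * X.u := by
  have h : (X.Ga.filter (fun b => X.gi b = i ∧ X.gj b = j)).card ≤
      ((univ : Finset (ZMod (2 * r + 1))) ×ˢ range X.u).card := by
    apply Finset.card_le_card_of_injOn (fun b => (X.gs b, X.gk b))
    · intro b hb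
      rw [mem_coe, mem_filter] at hb
      rw [mem_coe, mem_product]
      exact ⟨mem_univ _, mem_range.2 (X.glt b hb.1)⟩
    · intro b hb b' hb' h
      rw [mem_coe, mem_filter] at hb hb'
      simp only [Prod.mk.injEq] at h
      exact X.ginj b hb.1 b' hb'.1 (hb.2.1.trans hb'.2.1.symm) (hb.2.2.trans hb'.2.2.symm) h.1 h.2
  refine le_trans h (le_of_eq ?_)
  rw [card_product, card_univ, ZMod.card, card_range]

/-- the colours of `Ga` idle on the side `s` in the cell `κ` -/
noncomputable def GG (X : Ctx m r k d G U F) (s : Bool) (κ : ZMod (2 * m + 1)) : Finset (Fin k) :=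
  X.Ga.filter (fun b => (if s = true then X.gi b else X.gj b) = κ)

theorem GG_card (s : Bool) (κ : ZMod (2 * m + 1)) :
    (GG X s κ).card ≤ (2 * m + 1) * ((2 * r + 1) * X.u) := by
  have h1 : (GG X s κ).card = ∑ j : ZMod (2 * m + 1), ((GG X s κ).filter
      (fun b => (if s = true then X.gj b else X.gi b) = j)).card :=
    Finset.card_eq_sum_card_fiberwise (fun w _ => Finset.mem_univ _)
  rw [h1]
  refine (Finset.sum_le_card_nsmul _ _ ((2 * r + 1) * X.u) fun j _ => ?_).trans ?_
  · cases s with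
    | true =>
      refine le_trans (Finset.card_le_card ?_) (grp_card (X := X) κ j)
      intro b hb
      simp only [GG, Finset.mem_filter, if_true] at hb ⊢
      exact ⟨hb.1.1, hb.1.2, hb.2⟩
    | false =>
      refine le_trans (Finset.card_le_card ?_) (grp_card (X := X) j κ)
      intro b hb
      simp only [GG, Finset.mem_filter, Bool.false_eq_true, if_false] at hb ⊢
      exact ⟨hb.1.1, hb.2, hb.1.2⟩
  · rw [Finset.card_univ, ZMod.card, smul_eq_mul]

theorem cls_nb (b : Fin k) (v : V) (s : Bool) (κ : ZMod (2 * m + 1)) :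
    (((nb G v ∩ cls U X.at' (ats s {κ} univ)).filter (fun w => X.c w = b)).card : ℝ) ≤
      (d : ℝ) / (2 * (2 * m + 1) * (2 * r + 1)) + X.dl * d := by
  have hM0 : (0 : ℝ) < 2 * (m : ℝ) + 1 := by positivity
  have hR0 : (0 : ℝ) < 2 * (r : ℝ) + 1 := by positivity
  have hdl := X.dl0
  by_cases h : ∃ w0, w0 ∉ U ∧ X.c w0 = b
  · obtain ⟨w0, hw0U, hw0⟩ := h
    have h1 : ((nb G v ∩ cls U X.at' (ats s {κ} univ)).filter (fun w => X.c w = b)).card ≤
        (nb G v ∩ cls U X.at' {((s, κ, X.sub w0) : Atom m r)}).card := by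
      refine Finset.card_le_card fun w hw => ?_
      simp only [cls, Finset.mem_filter, Finset.mem_inter, Finset.mem_univ, true_and, mem_ats,
        Finset.mem_singleton, and_true, Ctx.at'] at hw ⊢
      obtain ⟨⟨h1, h2, h3, h4⟩, h5⟩ := hw
      refine ⟨h1, h2, ?_⟩
      have h6 : X.sub w = X.sub w0 := by
        by_contra hne
        have h7 := X.cP w h2
        have h8 := X.cP w0 hw0U
        rw [h5] at h7
        rw [hw0] at h8
        exact Finset.disjoint_left.1 (X.Pald _ _ hne) h7 h8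
      rw [h3, h4, h6]
    have h2 := (abs_le.1 (X.degat v ((s, κ, X.sub w0) : Atom m r))).2
    have h3 : (((nb G v ∩ cls U X.at' (ats s {κ} univ)).filter (fun w => X.c w = b)).card : ℝ) ≤
        ((nb G v ∩ cls U X.at' {((s, κ, X.sub w0) : Atom m r)}).card : ℝ) := by exact_mod_cast h1
    have h4 : ((nb G v ∩ cls U X.at' {((s, κ, X.sub w0) : Atom m r)}).card : ℝ) -
        (d : ℝ) / (2 * (2 * m + 1) * (2 * r + 1)) ≤ X.dl * d := h2
    linarith
  · have : (nb G v ∩ cls U X.at' (ats s {κ} univ)).filter (fun w => X.c w = b) = ∅ := by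
      rw [Finset.filter_eq_empty_iff]
      intro w hw hc
      rw [Finset.mem_inter] at hw
      simp only [cls, Finset.mem_filter] at hw
      exact h ⟨w, hw.2.2.1, hc⟩
    rw [this]
    simp only [Finset.card_empty, Nat.cast_zero]
    positivity

/-! ### The sets `CC` -/

theorem CC_G {b : Fin k} (hb : b ∈ X.Ga) (s : Bool) :
    CC X (Sum.inl b) s = ats s {if s = true then X.gi b else X.gj b} univ := by
  simp only [CC, if_pos hb]

theorem CC_card_G {b : Fin k} (hb : b ∈ X.Ga) (s : Bool) :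
    ((CC X (Sum.inl b) s).card : ℝ) = 2 * (r : ℝ) + 1 := by
  rw [CC_G hb, card_ats, Finset.card_singleton, one_mul, RM]

theorem CC_card_eq (t : Fin k ⊕ Fin 4) : (CC X t true).card = (CC X t false).card := by
  cases t with
  | inl b =>
    by_cases hb : b ∈ X.Ga
    · rw [CC_G hb, CC_G hb, card_ats, card_ats, Finset.card_singleton, Finset.card_singleton]
    · simp only [CC, if_neg hb]
      rw [card_ats, card_ats]
  | inr j =>
    by_cases hj : j.val % 2 = 0
    · simp only [CC, if_pos hj]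
      rw [card_ats, card_ats]
    · simp only [CC, if_neg hj]
      rw [card_ats, card_ats]

theorem CC_card_eq' (t : Fin k ⊕ Fin 4) (s : Bool) : (CC X t s).card = (CC X t true).card := by
  cases s with
  | true => rfl
  | false => exact (CC_card_eq t).symm

theorem CC_card_O {t : Fin k ⊕ Fin 4} (ht : ¬ isG X t) (s : Bool) :
    (2 * (m : ℝ) + 1) * ((2 * (r : ℝ) + 1) / 2) ≤ ((CC X t s).card : ℝ) ∧
    ((CC X t s).card : ℝ) ≤ (2 * (m : ℝ) + 1) * (2 * (r : ℝ) + 1) := by
  have hM0 : (0 : ℝ) < 2 * (m : ℝ) + 1 := by positivity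
  have hR0 : (0 : ℝ) ≤ (r : ℝ) := Nat.cast_nonneg r
  have hfull : (((ats (m := m) (r := r) s univ univ).card : ℕ) : ℝ) =
      (2 * (m : ℝ) + 1) * (2 * (r : ℝ) + 1) := by
    rw [card_ats, Finset.card_univ, Finset.card_univ, ZMod.card, ZMod.card]
    push_cast
    ring
  cases t with
  | inl b =>
    have hbG : b ∉ X.Ga := fun h => ht ⟨b, h, rfl⟩
    simp only [CC, if_neg hbG]
    rw [hfull]
    refine ⟨?_, le_rfl⟩
    apply mul_le_mul_of_nonneg_left _ hM0.le
    linarith
  | inr j =>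
    simp only [CC]
    split_ifs
    · rw [card_ats, Finset.card_univ, ZMod.card, X.GScard]
      push_cast
      refine ⟨?_, ?_⟩
      · apply mul_le_mul_of_nonneg_left _ hM0.le
        linarith
      · apply mul_le_mul_of_nonneg_left _ hM0.le
        linarith
    · rw [hfull]
      refine ⟨?_, le_rfl⟩
      apply mul_le_mul_of_nonneg_left _ hM0.le
      linarith

theorem CC_nonempty (t : Fin k ⊕ Fin 4) (s : Bool) : (CC X t s).Nonempty := by
  rw [← Finset.card_pos]
  have hM0 : (0 : ℝ) < 2 * (m : ℝ) + 1 := by positivity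
  have hR0 : (0 : ℝ) < 2 * (r : ℝ) + 1 := by positivity
  by_cases ht : isG X t
  · obtain ⟨b, hb, rfl⟩ := ht
    have := CC_card_G hb s
    have h2 : (0 : ℝ) < ((CC X (Sum.inl b) s).card : ℝ) := by rw [this]; exact hR0
    exact_mod_cast h2
  · have := (CC_card_O ht s).1
    have h2 : (0 : ℝ) < ((CC X t s).card : ℝ) := lt_of_lt_of_le (by positivity) this
    exact_mod_cast h2

theorem CC_side {t : Fin k ⊕ Fin 4} {s : Bool} {a : Atom m r} (h : a ∈ CC X t s) : a.1 = s := by
  cases t with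
  | inl b =>
    by_cases hb : b ∈ X.Ga
    · rw [CC_G hb] at h
      exact (mem_ats.1 h).1
    · simp only [CC, if_neg hb] at h
      exact (mem_ats.1 h).1
  | inr j =>
    by_cases hj : j.val % 2 = 0
    · simp only [CC, if_pos hj] at h
      exact (mem_ats.1 h).1
    · simp only [CC, if_neg hj] at h
      exact (mem_ats.1 h).1

/-- the ordinary vertices of the task are in the atoms of `CC` -/
theorem W_CC {t : Fin k ⊕ Fin 4} {v : V} (hv : v ∈ W X I t) (hE : ¬ Ex X t v) :
    v ∈ cls U X.at' (CC X t (X.side v)) := by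
  by_cases ht : isG X t
  · obtain ⟨b, hb, rfl⟩ := ht
    have hi : X.idl b v := by
      by_contra hni
      apply hE
      refine ⟨?_, fun h => absurd ⟨b, hb, rfl⟩ h⟩
      intro b' hb' _
      rw [← Sum.inl.inj hb']
      exact hni
    simp only [cls, Finset.mem_filter, Finset.mem_univ, true_and]
    refine ⟨hi.1, ?_⟩
    rw [CC_G hb, mem_ats]
    refine ⟨rfl, ?_, Finset.mem_univ _⟩
    rw [Finset.mem_singleton]
    change X.cell v = _
    cases hs : X.side v with
    | true => rw [if_pos rfl]; exact (hi.2.1 hs).symm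
    | false => rw [if_neg (by simp)]; exact (hi.2.2 hs).symm
  · have hU : v ∉ U := by
      intro hU
      apply hE
      refine ⟨fun b hb hbG => absurd ⟨b, hbG, hb⟩ ht, fun _ => hU⟩
    simp only [cls, Finset.mem_filter, Finset.mem_univ, true_and]
    refine ⟨hU, ?_⟩
    cases t with
    | inl b =>
      have hbG : b ∉ X.Ga := fun h => ht ⟨b, h, rfl⟩
      simp only [CC, if_neg hbG]
      rw [mem_ats]
      exact ⟨rfl, Finset.mem_univ _, Finset.mem_univ _⟩
    | inr j =>
      simp only [CC]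
      split_ifs with hj
      · rw [mem_ats]
        refine ⟨rfl, Finset.mem_univ _, ?_⟩
        simp only [W, Wq, Finset.mem_filter] at hv
        have hc := (hv.2.2 hj).resolve_left hU
        rcases c_cases hU with h1 | h1
        · exact h1.1
        · exact absurd (Finset.mem_union_left _ hc) h1.2
      · rw [mem_ats]
        exact ⟨rfl, Finset.mem_univ _, Finset.mem_univ _⟩

end ctx

end Pool.Agent.Work.MP_db9399_exp.helper75
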