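import Pool.Agent.Work.MP_db9399_exp_helper75.T3

/-!
# Block TASK of THEOREM EXP, degrees (helper75)
-/

set_option autoImplicit false
set_option linter.unusedSectionVars false
set_option linter.unusedVariables false

namespace Pool.Agent.Work.MP_db9399_exp.helper75

open Finset Classical
open Pool.Agent.Work.MP_db9399_all (nb mis)
open Pool.Agent.Work.MP_db9399_qr (cov PEC ins sd PMat W0 imb ZQ Good)
open _root_.MP_db9399_co

universe u

section ctx
variable {m r : ℕ} {V : Type u} [Fintype V] {k d : ℕ} {G : SimpleGraph V} {U : Finset V}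
  {F : V → Finset (Fin k)} {X : Ctx m r k d G U F} {I : Ins X}

/-- the idle cell of the other side -/
def ka (X : Ctx m r k d G U F) (b : Fin k) (v : V) : ZMod (2 * m + 1) :=
  if (!X.side v) = true then X.gi b else X.gj b

theorem S_G {b : Fin k} (hb : b ∈ X.Ga) {v w : V} :
    w ∈ nb G v ∩ cls U X.at' (CC X (Sum.inl b) (!X.side v)) ↔
      G.Adj v w ∧ w ∉ U ∧ X.side w = (!X.side v) ∧ X.cell w = ka X b v := by
  rw [CC_G hb, Finset.mem_inter, mem_nb]
  simp only [cls, Finset.mem_filter, Finset.mem_univ, true_and, mem_ats, Finset.mem_singleton,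
    and_true, Ctx.at', ka]

theorem idl_S {b : Fin k} (hb : b ∈ X.Ga) {v w : V} (hU : w ∉ U)
    (h1 : X.side w = (!X.side v)) (h2 : X.cell w = ka X b v) : X.idl b w := by
  refine ⟨hU, fun hs => ?_, fun hs => ?_⟩
  · change X.side w = true at hs
    change X.gi b = X.cell w
    rw [h2]
    unfold ka
    rw [if_pos (h1 ▸ hs)]
  · change X.side w = false at hs
    change X.gj b = X.cell w
    rw [h2]
    unfold ka
    rw [if_neg]
    rw [← h1, hs]
    simp

theorem bool_ne {s s' : Bool} (h : s' = !s) : s ≠ s' := by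
  cases s <;> cases s' <;> simp at h ⊢

theorem incl {τ : V → V → Fin 3} {Z : Fin k ⊕ Fin 4 → Finset V}
    {Mo : Fin k ⊕ Fin 4 → Finset (V × V)} {b : Fin k} (hb : b ∈ X.Ga) {v : V} {ty : Fin 3}
    (hty : (X.idl b v ∧ ty = 0) ∨ (¬ X.idl b v ∧ ty = st (X.side v))) {w : V}
    (hadj : G.Adj v w) (hU : w ∉ U) (h1 : X.side w = (!X.side v)) (h2 : X.cell w = ka X b v)
    (h3 : τ v w = ty) (h4 : X.c w ≠ b) (h5 : w ∉ cov X.R I.t b) (h6 : w ∉ Z (Sum.inl b))
    (h7 : ¬ ∃ t', t' ≠ Sum.inl b ∧ Us Mo t' v w) : w ∈ TT X I τ Z Mo (Sum.inl b) v := by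
  have hi := idl_S hb hU h1 h2
  have hs := bool_ne h1
  simp only [TT, Finset.mem_filter, Finset.mem_sdiff]
  refine ⟨⟨memW_G hb hi h4 h5, h6⟩, ?_, fun h => hs h.symm, ⟨hadj, hs, ?_⟩, h7⟩
  · intro hE
    exact hE.1 b rfl hb hi
  · intro b' _ hbb
    rw [← Sum.inl.inj hbb]
    rcases hty with ⟨h8, h9⟩ | ⟨h8, h9⟩
    · exact Or.inl ⟨h8, hi, h3.trans h9⟩
    · exact Or.inr (Or.inl ⟨h8, hi, h3.trans h9⟩)

section deg
variable {τ : V → V → Fin 3} (hτ : ∀ v w, X.side v ≠ X.side w → τ v w = τ w v)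
  {Z : Fin k ⊕ Fin 4 → Finset V}
  {Mo : Fin k ⊕ Fin 4 → Finset (V × V)}
  (hMo : ∀ t, Mo t = ∅ ∨ PP X I τ Z t (Mo t))
include hτ hMo

/-- idle vertices -/
theorem deg_idle {b : Fin k} (hb : b ∈ X.Ga) (hZc : ((Z (Sum.inl b)).card : ℝ) ≤ 2)
    (hlow : ∀ v κ, (((nbc X v κ).filter (fun w => τ v w ≠ 0)).card : ℝ) ≤ yy X / 16)
    (v : V) (hv : X.idl b v) :
    (((nb G v ∩ cls U X.at' (CC X (Sum.inl b) (!X.side v))) \
      TT X I τ Z Mo (Sum.inl b) v).card : ℝ) ≤ yy X / 4 := by
  obtain ⟨n1, n2, n3, n4, n5, n6, n7, n8, n9, n10, n11, n12, n13, n14, n15, n16⟩ := nums X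
  set S := nb G v ∩ cls U X.at' (CC X (Sum.inl b) (!X.side v)) with hS
  set A : Finset (Fin k) := X.Ga.filter (fun b' => X.gi b' = X.gi b ∧ X.gj b' = X.gj b) ∪ X.Pe
    with hA
  have hsub : S \ TT X I τ Z Mo (Sum.inl b) v ⊆
      ((((nbc X v (ka X b v)).filter (fun w => τ v w ≠ 0)) ∪
      (S.filter (fun w => X.c w = b))) ∪ ((nb G v).filter (fun w => X.idl b w ∧
        w ∈ cov X.R I.t b))) ∪ Z (Sum.inl b) ∪
      ((S.filter (fun w => τ v w = 0)).filter (fun w => ∃ t', t' ≠ Sum.inl b ∧ Us Mo t' v w)) := by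
    intro w hw
    rw [Finset.mem_sdiff] at hw
    obtain ⟨hwS, hwT⟩ := hw
    have hwS' := hwS
    rw [hS, S_G hb] at hwS'
    obtain ⟨h1, h2, h3, h4⟩ := hwS'
    simp only [Finset.mem_union, Finset.mem_filter, nbc, mem_nb]
    by_cases a1 : τ v w = 0
    · by_cases a2 : X.c w = b
      · exact Or.inl (Or.inl (Or.inl (Or.inr ⟨hwS, a2⟩)))
      · by_cases a3 : w ∈ cov X.R I.t b
        · exact Or.inl (Or.inl (Or.inr ⟨h1, idl_S hb h2 h3 h4, a3⟩))
        · by_cases a4 : w ∈ Z (Sum.inl b)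
          · exact Or.inl (Or.inr a4)
          · by_cases a5 : ∃ t', t' ≠ Sum.inl b ∧ Us Mo t' v w
            · exact Or.inr ⟨⟨hwS, a1⟩, a5⟩
            · exact absurd (incl hb (Or.inl ⟨hv, rfl⟩) h1 h2 h3 h4 a1 a2 a3 a4 a5) hwT
    · exact Or.inl (Or.inl (Or.inl (Or.inl ⟨⟨h1, h3, h4⟩, a1⟩)))
  have hAus : ∀ w ∈ S.filter (fun w => τ v w = 0), ∀ b', Us Mo (Sum.inl b') v w → b' ∈ A := by
    intro w hw b' hus
    rw [Finset.mem_filter, hS, S_G hb] at hw
    obtain ⟨⟨h1, h2, h3, h4⟩, h5⟩ := hw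
    rcases Us_col hτ hMo hus with h6 | h6
    · refine Finset.mem_union_left _ (Finset.mem_filter.2 ⟨h6.1, ?_⟩)
      rcases (Us_Al hτ hMo hus).1.2.2 b' h6.1 rfl with h7 | h7 | h7
      · obtain ⟨h8, h9, _⟩ := h7
        have hiw := idl_S hb h2 h3 h4
        cases hs : X.side v with
        | true =>
          have hsw : X.side w = false := by rw [h3, hs]; rfl
          exact ⟨(h8.2.1 hs).trans (hv.2.1 hs).symm, (h9.2.2 hsw).trans (hiw.2.2 hsw).symm⟩
        | false =>
          have hsw : X.side w = true := by rw [h3, hs]; rfl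
          exact ⟨(h9.2.1 hsw).trans (hiw.2.1 hsw).symm, (h8.2.2 hs).trans (hv.2.2 hs).symm⟩
      · exact absurd (h7.2.2.symm.trans h5) (st_ne_zero _)
      · exact absurd (h7.2.2.symm.trans h5) (st_ne_zero _)
    · exact Finset.mem_union_right _ h6
  have hu := used_card hτ hMo (Sum.inl b) v A _ hAus
  have hAc : (A.card : ℝ) ≤ (2 * (r : ℝ) + 1) * X.u + X.Pe.card := by
    have h1 := (Finset.card_union_le (X.Ga.filter (fun b' => X.gi b' = X.gi b ∧
      X.gj b' = X.gj b)) X.Pe).trans (Nat.add_le_add_right (grp_card (X := X) _ _) _)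
    exact_mod_cast h1
  have hur : (((S.filter (fun w => τ v w = 0)).filter
      (fun w => ∃ t', t' ≠ Sum.inl b ∧ Us Mo t' v w)).card : ℝ) ≤ (A.card : ℝ) + 4 := by
    exact_mod_cast hu
  have hcl : ((S.filter (fun w => X.c w = b)).card : ℝ) ≤
      (d : ℝ) / (2 * (2 * m + 1) * (2 * r + 1)) + X.dl * d := by
    rw [hS, CC_G hb]
    exact cls_nb b v _ _
  have hil := I.iloc b hb v
  have hl := hlow v (ka X b v)
  have h5 : ((S \ TT X I τ Z Mo (Sum.inl b) v).card : ℝ) ≤
      (((nbc X v (ka X b v)).filter (fun w => τ v w ≠ 0)).card : ℝ) +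
      ((S.filter (fun w => X.c w = b)).card : ℝ) +
      (((nb G v).filter (fun w => X.idl b w ∧ w ∈ cov X.R I.t b)).card : ℝ) +
      ((Z (Sum.inl b)).card : ℝ) + (((S.filter (fun w => τ v w = 0)).filter
        (fun w => ∃ t', t' ≠ Sum.inl b ∧ Us Mo t' v w)).card : ℝ) := by
    have := (Finset.card_le_card hsub).trans ((Finset.card_union_le _ _).trans
      (Nat.add_le_add_right ((Finset.card_union_le _ _).trans (Nat.add_le_add_right
      ((Finset.card_union_le _ _).trans (Nat.add_le_add_right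
      (Finset.card_union_le _ _) _)) _)) _))
    exact_mod_cast this
  have hy : X.g * yy X ≤ yy X := by
    have h0 : 0 ≤ yy X := by
      have : 0 < X.g * yy X := lt_of_lt_of_le (by norm_num) n6
      exact ((pos_iff_pos_of_mul_pos this).1 n3).le
    nlinarith
  linarith

/-- exceptional vertices -/
theorem deg_exc {b : Fin k} (hb : b ∈ X.Ga) (hZc : ((Z (Sum.inl b)).card : ℝ) ≤ 2)
    (hlow : ∀ v κ s, yy X / 32 - 2 * ((2 * r + 1) * X.dl * d) - 5 ≤
      (((nbc X v κ).filter (fun w => τ v w = st s)).card : ℝ))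
    (v : V) (hv : ¬ X.idl b v) :
    yy X / 100 ≤ ((TT X I τ Z Mo (Sum.inl b) v).card : ℝ) := by
  obtain ⟨n1, n2, n3, n4, n5, n6, n7, n8, n9, n10, n11, n12, n13, n14, n15, n16⟩ := nums X
  set S := nb G v ∩ cls U X.at' (CC X (Sum.inl b) (!X.side v)) with hS
  set B : Finset (Fin k) := X.Ga.filter (fun b' => ¬ X.idl b' v ∧ v ∉ cov X.R I.t b' ∧
    (v ∈ U → (X.side v = true → X.gj b' = ka X b v) ∧ (X.side v = false → X.gi b' = ka X b v)))
    with hB
  set A : Finset (Fin k) := B ∪ X.Pe with hA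
  have hsub : (nbc X v (ka X b v)).filter (fun w => τ v w = st (X.side v)) ⊆
      ((((TT X I τ Z Mo (Sum.inl b) v ∪ ((nbc X v (ka X b v)) ∩ U)) ∪
      (S.filter (fun w => X.c w = b))) ∪ ((nb G v).filter (fun w => X.idl b w ∧
        w ∈ cov X.R I.t b))) ∪ Z (Sum.inl b)) ∪
      ((S.filter (fun w => τ v w = st (X.side v))).filter
        (fun w => ∃ t', t' ≠ Sum.inl b ∧ Us Mo t' v w)) := by
    intro w hw
    rw [Finset.mem_filter] at hw
    obtain ⟨hw1, a1⟩ := hw
    have hw2 := hw1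
    simp only [nbc, Finset.mem_filter, mem_nb] at hw2
    obtain ⟨h1, h3, h4⟩ := hw2
    simp only [Finset.mem_union, Finset.mem_inter]
    by_cases h2 : w ∈ U
    · exact Or.inl (Or.inl (Or.inl (Or.inl (Or.inr ⟨hw1, h2⟩))))
    · have hwS : w ∈ S := by
        rw [hS, S_G hb]
        exact ⟨h1, h2, h3, h4⟩
      by_cases a2 : X.c w = b
      · exact Or.inl (Or.inl (Or.inl (Or.inr (Finset.mem_filter.2 ⟨hwS, a2⟩))))
      · by_cases a3 : w ∈ cov X.R I.t b
        · exact Or.inl (Or.inl (Or.inr (Finset.mem_filter.2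
            ⟨mem_nb.2 h1, idl_S hb h2 h3 h4, a3⟩)))
        · by_cases a4 : w ∈ Z (Sum.inl b)
          · exact Or.inl (Or.inr a4)
          · by_cases a5 : ∃ t', t' ≠ Sum.inl b ∧ Us Mo t' v w
            · exact Or.inr (Finset.mem_filter.2 ⟨Finset.mem_filter.2 ⟨hwS, a1⟩, a5⟩)
            · exact Or.inl (Or.inl (Or.inl (Or.inl (Or.inl
                (incl hb (Or.inr ⟨hv, rfl⟩) h1 h2 h3 h4 a1 a2 a3 a4 a5)))))
  have hAus : ∀ w ∈ S.filter (fun w => τ v w = st (X.side v)), ∀ b',
      Us Mo (Sum.inl b') v w → b' ∈ A := by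
    intro w hw b' hus
    rw [Finset.mem_filter, hS, S_G hb] at hw
    obtain ⟨⟨h1, h2, h3, h4⟩, h5⟩ := hw
    rcases Us_col hτ hMo hus with h6 | h6
    · refine Finset.mem_union_left _ (Finset.mem_filter.2 ⟨h6.1, ?_⟩)
      have hAl := (Us_Al hτ hMo hus).1
      rcases hAl.2.2 b' h6.1 rfl with h7 | h7 | h7
      · exact absurd (h5.symm.trans h7.2.2) (st_ne_zero _)
      · refine ⟨h7.1, h6.2, fun _ => ⟨fun hs => ?_, fun hs => ?_⟩⟩
        · have hsw : X.side w = false := by rw [h3, hs]; rfl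
          rw [← h4]
          exact h7.2.1.2.2 hsw
        · have hsw : X.side w = true := by rw [h3, hs]; rfl
          rw [← h4]
          exact h7.2.1.2.1 hsw
      · exact absurd (st_inj (h5.symm.trans h7.2.2)) hAl.2.1
    · exact Finset.mem_union_right _ h6
  have hu := used_card hτ hMo (Sum.inl b) v A _ hAus
  have hd0 : (0 : ℝ) ≤ d := Nat.cast_nonneg d
  have hBc : (B.card : ℝ) ≤ d / (2 * m + 1) ^ 2 + 8 * d / (2 * r + 1) := by
    have p1 : (0 : ℝ) ≤ d / (2 * m + 1) ^ 2 := by positivity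
    have p2 : (0 : ℝ) ≤ 8 * d / (2 * r + 1) := by positivity
    by_cases hvU : v ∈ U
    · have h1 := I.ucnt v hvU (ka X b v)
      have h2 : B.card ≤ (X.Ga.filter (fun b' => (X.side v = true → X.gj b' = ka X b v) ∧
          (X.side v = false → X.gi b' = ka X b v) ∧ v ∉ cov X.R I.t b')).card := by
        refine Finset.card_le_card fun b' hb' => ?_
        rw [hB, Finset.mem_filter] at hb'
        rw [Finset.mem_filter]
        exact ⟨hb'.1, (hb'.2.2.2 hvU).1, (hb'.2.2.2 hvU).2, hb'.2.2.1⟩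
      have h3 : (B.card : ℝ) ≤ ((X.Ga.filter (fun b' => (X.side v = true → X.gj b' = ka X b v) ∧
          (X.side v = false → X.gi b' = ka X b v) ∧ v ∉ cov X.R I.t b')).card : ℝ) := by
        exact_mod_cast h2
      linarith
    · have h1 := I.hcnt v hvU
      have h2 : B.card ≤ (X.Ga.filter (fun b' => ¬ X.idl b' v ∧ v ∉ cov X.R I.t b')).card := by
        refine Finset.card_le_card fun b' hb' => ?_
        rw [hB, Finset.mem_filter] at hb'
        rw [Finset.mem_filter]
        exact ⟨hb'.1, hb'.2.1, hb'.2.2.1⟩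
      have h3 : (B.card : ℝ) ≤ ((X.Ga.filter (fun b' => ¬ X.idl b' v ∧
          v ∉ cov X.R I.t b')).card : ℝ) := by exact_mod_cast h2
      linarith
  have hAc : (A.card : ℝ) ≤ (B.card : ℝ) + X.Pe.card := by
    exact_mod_cast Finset.card_union_le B X.Pe
  have hur : (((S.filter (fun w => τ v w = st (X.side v))).filter
      (fun w => ∃ t', t' ≠ Sum.inl b ∧ Us Mo t' v w)).card : ℝ) ≤ (A.card : ℝ) + 4 := by
    exact_mod_cast hu
  have hcl : ((S.filter (fun w => X.c w = b)).card : ℝ) ≤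
      (d : ℝ) / (2 * (2 * m + 1) * (2 * r + 1)) + X.dl * d := by
    rw [hS, CC_G hb]
    exact cls_nb b v _ _
  have hil := I.iloc b hb v
  have hl := hlow v (ka X b v) (X.side v)
  have hUn := U_nb X v (nbc X v (ka X b v)) (Finset.filter_subset _ _)
  have h5 : (((nbc X v (ka X b v)).filter (fun w => τ v w = st (X.side v))).card : ℝ) ≤
      ((TT X I τ Z Mo (Sum.inl b) v).card : ℝ) + ((nbc X v (ka X b v) ∩ U).card : ℝ) +
      ((S.filter (fun w => X.c w = b)).card : ℝ) +
      (((nb G v).filter (fun w => X.idl b w ∧ w ∈ cov X.R I.t b)).card : ℝ) +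
      ((Z (Sum.inl b)).card : ℝ) + (((S.filter (fun w => τ v w = st (X.side v))).filter
        (fun w => ∃ t', t' ≠ Sum.inl b ∧ Us Mo t' v w)).card : ℝ) := by
    have := (Finset.card_le_card hsub).trans ((Finset.card_union_le _ _).trans
      (Nat.add_le_add_right ((Finset.card_union_le _ _).trans (Nat.add_le_add_right
      ((Finset.card_union_le _ _).trans (Nat.add_le_add_right
      ((Finset.card_union_le _ _).trans (Nat.add_le_add_right
      (Finset.card_union_le _ _) _)) _)) _)) _))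
    exact_mod_cast this
  have hy : X.g * yy X ≤ yy X := by
    have h0 : 0 ≤ yy X := by
      have : 0 < X.g * yy X := lt_of_lt_of_le (by norm_num) n6
      exact ((pos_iff_pos_of_mul_pos this).1 n3).le
    nlinarith
  linarith

/-- other tasks -/
theorem deg_other (hZ : ∀ t, Z t ⊆ Cand X I t) {t : Fin k ⊕ Fin 4} (ht : ¬ isG X t)
    (hT : isT X t) (v : V) :
    (((nb G v ∩ cls U X.at' (CC X t (!X.side v))) \
      TT X I τ Z Mo t v).card : ℝ) ≤ X.g * d / 100 := by
  obtain ⟨n1, n2, n3, n4, n5, n6, n7, n8, n9, n10, n11, n12, n13, n14, n15, n16⟩ := nums X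
  set S := nb G v ∩ cls U X.at' (CC X t (!X.side v)) with hS
  set c1 := (tc X t (!X.side v)).1 with hc1
  set c2 := (tc X t (!X.side v)).2 with hc2
  set B : Finset (Fin k) := X.Ga.filter (fun b' => v ∉ cov X.R I.t b') with hB
  set A : Finset (Fin k) := B ∪ X.Pe with hA
  have hsub : S \ TT X I τ Z Mo t v ⊆ (((nbc X v c1) ∪ nbc X v c2) ∪
      nbc X v (kap X I t)) ∪ (S.filter (fun w => ∃ t', t' ≠ t ∧ Us Mo t' v w)) := by
    intro w hw
    rw [Finset.mem_sdiff] at hw
    obtain ⟨hwS, hwT⟩ := hw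
    have hw' := hwS
    rw [hS, Finset.mem_inter, mem_nb] at hw'
    simp only [cls, Finset.mem_filter, Finset.mem_univ, true_and] at hw'
    obtain ⟨h1, hU, h2'⟩ := hw'
    have h2 : X.side w = !X.side v := CC_side h2'
    have hn : ∀ κ, X.cell w = κ → w ∈ nbc X v κ := by
      intro κ hκ
      simp only [nbc, Finset.mem_filter, mem_nb]
      exact ⟨h1, h2, hκ⟩
    have hcG : ∀ j : Fin 4, t = Sum.inr j → j.val % 2 = 0 → X.c w ∈ X.Ga := by
      intro j hj hj2
      rw [hj] at h2'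
      simp only [CC, if_pos hj2] at h2'
      have h3 := (mem_ats.1 h2').2.2
      rcases c_cases hU with h4 | h4
      · exact h4.2
      · exact absurd h3 h4.1
    by_cases hw1 : X.cell w = c1
    · have := hn _ hw1
      simp only [Finset.mem_union]; tauto
    by_cases hw2 : X.cell w = c2
    · have := hn _ hw2
      simp only [Finset.mem_union]; tauto
    by_cases hZw : w ∈ Z t
    · have h3 := hZ t hZw
      simp only [Cand, Finset.mem_filter] at h3
      have := hn _ h3.2.2.1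
      simp only [Finset.mem_union]; tauto
    by_cases hus : ∃ t', t' ≠ t ∧ Us Mo t' v w
    · simp only [Finset.mem_union, Finset.mem_filter]; tauto
    · exfalso
      apply hwT
      have hs := bool_ne h2
      simp only [TT, Finset.mem_filter, Finset.mem_sdiff]
      refine ⟨⟨memW_O ht hT hU (by rw [h2]; exact hw1) (by rw [h2]; exact hw2) hcG, hZw⟩,
        ?_, fun h => hs h.symm, ⟨h1, hs, ?_⟩, hus⟩
      · intro hE
        exact hU (hE.2 ht)
      · intro b' hb' hbb
        exact absurd ⟨b', hb', hbb⟩ ht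
  have hAus : ∀ w ∈ S, ∀ b, Us Mo (Sum.inl b) v w → b ∈ A := by
    intro w _ b hus
    rcases Us_col hτ hMo hus with h5 | h5
    · exact Finset.mem_union_left _ (Finset.mem_filter.2 h5)
    · exact Finset.mem_union_right _ h5
  have hM0 : (0 : ℝ) < 2 * (m : ℝ) + 1 := by positivity
  have hd0 : (0 : ℝ) ≤ d := Nat.cast_nonneg d
  have hBc : (B.card : ℝ) ≤ d / (2 * m + 1) + 8 * d / (2 * r + 1) := by
    have p1 : (0 : ℝ) ≤ d / (2 * m + 1) := by positivity
    have p2 : (0 : ℝ) ≤ 8 * d / (2 * r + 1) := by positivity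
    by_cases hvU : v ∈ U
    · have h1 : B.card = ∑ j : ZMod (2 * m + 1), (B.filter
          (fun b => (if X.side v = true then X.gj b else X.gi b) = j)).card :=
        Finset.card_eq_sum_card_fiberwise (fun w _ => Finset.mem_univ _)
      have h2 : ∀ j : ZMod (2 * m + 1), ((B.filter
          (fun b => (if X.side v = true then X.gj b else X.gi b) = j)).card : ℝ) ≤
          d / (2 * m + 1) ^ 2 := by
        intro j
        refine le_trans ?_ (I.ucnt v hvU j)
        have : (B.filter (fun b => (if X.side v = true then X.gj b else X.gi b) = j)).card ≤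
            (X.Ga.filter (fun b => (X.side v = true → X.gj b = j) ∧
            (X.side v = false → X.gi b = j) ∧ v ∉ cov X.R I.t b)).card := by
          refine Finset.card_le_card fun b hb => ?_
          rw [Finset.mem_filter, hB, Finset.mem_filter] at hb
          rw [Finset.mem_filter]
          refine ⟨hb.1.1, fun hs => ?_, fun hs => ?_, hb.1.2⟩
          · have := hb.2
            rw [if_pos hs] at this
            exact this
          · have := hb.2
            rw [if_neg (by rw [hs]; simp)] at this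
            exact this
        exact_mod_cast this
      have h3 : (B.card : ℝ) ≤ (2 * (m : ℝ) + 1) * (d / (2 * m + 1) ^ 2) := by
        rw [h1]
        push_cast
        refine (Finset.sum_le_card_nsmul _ _ _ fun j _ => h2 j).trans ?_
        rw [Finset.card_univ, ZMod.card, nsmul_eq_mul]
        push_cast
        exact le_rfl
      have h4 : (2 * (m : ℝ) + 1) * (d / (2 * m + 1) ^ 2) = d / (2 * m + 1) := by
        field_simp
      linarith
    · have h1 := I.hcnt v hvU
      have h2 : B ⊆ GG X (X.side v) (X.cell v) ∪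
          X.Ga.filter (fun b' => ¬ X.idl b' v ∧ v ∉ cov X.R I.t b') := by
        intro b hb
        rw [hB, Finset.mem_filter] at hb
        by_cases hi : X.idl b v
        · refine Finset.mem_union_left _ (Finset.mem_filter.2 ⟨hb.1, ?_⟩)
          cases hs : X.side v with
          | true => rw [if_pos rfl]; exact hi.2.1 hs
          | false => rw [if_neg (by simp)]; exact hi.2.2 hs
        · exact Finset.mem_union_right _ (Finset.mem_filter.2 ⟨hb.1, hi, hb.2⟩)
      have h3 : (B.card : ℝ) ≤ ((GG X (X.side v) (X.cell v)).card : ℝ) +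
          ((X.Ga.filter (fun b' => ¬ X.idl b' v ∧ v ∉ cov X.R I.t b')).card : ℝ) := by
        exact_mod_cast (Finset.card_le_card h2).trans (Finset.card_union_le _ _)
      have h4 : ((GG X (X.side v) (X.cell v)).card : ℝ) ≤
          (2 * (m : ℝ) + 1) * ((2 * (r : ℝ) + 1) * X.u) := by
        exact_mod_cast GG_card (X := X) (X.side v) (X.cell v)
      linarith
  have hAc : (A.card : ℝ) ≤ (B.card : ℝ) + X.Pe.card := by
    exact_mod_cast Finset.card_union_le B X.Pe
  have hur : ((S.filter (fun w => ∃ t', t' ≠ t ∧ Us Mo t' v w)).card : ℝ) ≤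
      (A.card : ℝ) + 4 := by exact_mod_cast used_card hτ hMo t v A S hAus
  have h5 : ((S \ TT X I τ Z Mo t v).card : ℝ) ≤
      ((nbc X v c1).card : ℝ) + ((nbc X v c2).card : ℝ) + ((nbc X v (kap X I t)).card : ℝ) +
      ((S.filter (fun w => ∃ t', t' ≠ t ∧ Us Mo t' v w)).card : ℝ) := by
    have := (Finset.card_le_card hsub).trans ((Finset.card_union_le _ _).trans
      (Nat.add_le_add_right ((Finset.card_union_le _ _).trans (Nat.add_le_add_right
      (Finset.card_union_le _ _) _)) _))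
    exact_mod_cast this
  have e1 := (nbc_card X v c1).2
  have e2 := (nbc_card X v c2).2
  have e3 := (nbc_card X v (kap X I t)).2
  have e4 : (d : ℝ) / (2 * (2 * m + 1)) = d / (2 * m + 1) / 2 := by
    field_simp
  rw [e4] at e1 e2 e3
  have hy : X.g * yy X ≤ yy X := by
    have h0 : 0 ≤ yy X := by
      have : 0 < X.g * yy X := lt_of_lt_of_le (by norm_num) n6
      exact ((pos_iff_pos_of_mul_pos this).1 n3).le
    nlinarith
  have hy2 : yy X ≤ d / (2 * m + 1) := by
    unfold yy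
    apply div_le_div_of_nonneg_right _ hM0.le
    nlinarith
  linarith

theorem deg_other_U (hZ : ∀ t, Z t ⊆ Cand X I t) {t : Fin k ⊕ Fin 4} (ht : ¬ isG X t)
    (hT : isT X t) (v : V) : (d : ℝ) / 8 ≤ ((TT X I τ Z Mo t v).card : ℝ) := by
  obtain ⟨n1, n2, n3, n4, n5, n6, n7, n8, n9, n10, n11, n12, n13, n14, n15, n16⟩ := nums X
  have h1 := deg_other hτ hMo hZ ht hT v
  set S := nb G v ∩ cls U X.at' (CC X t (!X.side v)) with hS
  have h2 := (abs_le.1 (nb_cls X v (CC X t (!X.side v)))).1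
  have h3 := CC_card_O (X := X) ht (!X.side v)
  have hM0 : (0 : ℝ) < 2 * (m : ℝ) + 1 := by positivity
  have hR0 : (0 : ℝ) < 2 * (r : ℝ) + 1 := by positivity
  have hd0 : (0 : ℝ) ≤ d := Nat.cast_nonneg d
  have h4 : (S.card : ℝ) ≤ ((TT X I τ Z Mo t v).card : ℝ) +
      ((S \ TT X I τ Z Mo t v).card : ℝ) := by
    have : S.card ≤ (TT X I τ Z Mo t v).card + (S \ TT X I τ Z Mo t v).card := by
      refine (Finset.card_le_card ?_).trans (Finset.card_union_le _ _)
      intro w hw
      by_cases hT : w ∈ TT X I τ Z Mo t v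
      · exact Finset.mem_union_left _ hT
      · exact Finset.mem_union_right _ (Finset.mem_sdiff.2 ⟨hw, hT⟩)
    exact_mod_cast this
  have h5 : (d : ℝ) / 4 ≤ ((CC X t (!X.side v)).card : ℝ) *
      ((d : ℝ) / (2 * (2 * m + 1) * (2 * r + 1))) := by
    calc (d : ℝ) / 4 = ((2 * (m : ℝ) + 1) * ((2 * (r : ℝ) + 1) / 2)) *
        ((d : ℝ) / (2 * (2 * m + 1) * (2 * r + 1))) := by field_simp; ring
      _ ≤ _ := mul_le_mul_of_nonneg_right h3.1 (by positivity)
  have h6 : ((CC X t (!X.side v)).card : ℝ) * (X.dl * d) ≤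
      (2 * (m : ℝ) + 1) * ((2 * (r : ℝ) + 1) * X.dl * d) := by
    calc ((CC X t (!X.side v)).card : ℝ) * (X.dl * d) ≤
        ((2 * (m : ℝ) + 1) * (2 * (r : ℝ) + 1)) * (X.dl * d) :=
          mul_le_mul_of_nonneg_right h3.2 (by positivity)
      _ = _ := by ring
  have h7 : (2 * (m : ℝ) + 1) * ((2 * (r : ℝ) + 1) * X.dl * d) ≤ d / 100 := by
    have h8 : (10 : ℝ) ^ 6 * ((2 * (m : ℝ) + 1) * ((2 * (r : ℝ) + 1) * X.dl * d)) ≤
        (2 * (m : ℝ) + 1) * (X.g * yy X) := by
      have := mul_le_mul_of_nonneg_left n9 hM0.le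
      linarith
    have h9 : (2 * (m : ℝ) + 1) * (X.g * yy X) = X.g * (X.g * d) := by
      unfold yy
      field_simp
    have h10 : X.g * (X.g * d) ≤ d := by
      have h11 : X.g * d ≤ d := by nlinarith
      have h12 : X.g * (X.g * d) ≤ 1 * (X.g * d) :=
        mul_le_mul_of_nonneg_right (by linarith) (by positivity)
      linarith
    linarith
  have h8 : X.g * d / 100 ≤ d / 100 := by nlinarith
  linarith

end deg

/-- few exceptional neighbours -/
theorem deg_E {Z : Fin k ⊕ Fin 4 → Finset V} (t : Fin k ⊕ Fin 4) (v : V) :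
    ((((W X I t \ Z t).filter (fun w => Ex X t w ∧ X.side w ≠ X.side v ∧ G.Adj v w)).card : ℝ)
      ≤ 8 * d / (2 * r + 1) + 2) ∧
    (¬ isG X t → (((W X I t \ Z t).filter
      (fun w => Ex X t w ∧ X.side w ≠ X.side v ∧ G.Adj v w)).card : ℝ) ≤ 2) := by
  set Q := (W X I t \ Z t).filter (fun w => Ex X t w ∧ X.side w ≠ X.side v ∧ G.Adj v w) with hQ
  have hd0 : (0 : ℝ) ≤ d := Nat.cast_nonneg d
  have p2 : (0 : ℝ) ≤ 8 * d / (2 * r + 1) := by positivity
  have hO : ¬ isG X t → (Q.card : ℝ) ≤ 2 := by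
    intro ht
    have h1 := U_nb X v ((nb G v)) (fun _ h => h)
    have h2 : Q.card ≤ (nb G v ∩ U).card := by
      refine Finset.card_le_card fun w hw => ?_
      rw [hQ, Finset.mem_filter] at hw
      rw [Finset.mem_inter, mem_nb]
      exact ⟨hw.2.2.2, hw.2.1.2 ht⟩
    have h3 : (Q.card : ℝ) ≤ ((nb G v ∩ U).card : ℝ) := by exact_mod_cast h2
    linarith
  refine ⟨?_, hO⟩
  by_cases ht : isG X t
  · obtain ⟨b, hb, rfl⟩ := ht
    have h1 := U_nb X v ((nb G v)) (fun _ h => h)
    have h2 := I.hloc b hb v (!X.side v)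
    have h3 : Q ⊆ ((nb G v).filter (fun w => w ∉ U ∧ X.side w = (!X.side v) ∧ ¬ X.idl b w ∧
        w ∉ cov X.R I.t b)) ∪ (nb G v ∩ U) := by
      intro w hw
      rw [hQ, Finset.mem_filter] at hw
      obtain ⟨h4, h5, h6, h7⟩ := hw
      by_cases hU : w ∈ U
      · exact Finset.mem_union_right _ (Finset.mem_inter.2 ⟨mem_nb.2 h7, hU⟩)
      · refine Finset.mem_union_left _ (Finset.mem_filter.2 ⟨mem_nb.2 h7, hU, ?_, ?_, ?_⟩)
        · cases hs : X.side v <;> cases hs' : X.side w <;> rw [hs, hs'] at h6 <;> simp at h6 ⊢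
        · exact h5.1 b rfl hb
        · have h8 := (Finset.mem_sdiff.1 h4).1
          simp only [W, if_pos (Finset.mem_union_left _ hb : b ∈ X.Ga ∪ X.Pe), W0,
            Finset.mem_filter] at h8
          exact h8.2.2.2
    have h4 : (Q.card : ℝ) ≤ (((nb G v).filter (fun w => w ∉ U ∧ X.side w = (!X.side v) ∧
        ¬ X.idl b w ∧ w ∉ cov X.R I.t b)).card : ℝ) + ((nb G v ∩ U).card : ℝ) := by
      exact_mod_cast (Finset.card_le_card h3).trans (Finset.card_union_le _ _)
    linarith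
  · have := hO ht
    linarith

end ctx

end Pool.Agent.Work.MP_db9399_exp.helper75
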