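import Pool.Agent.Work.MP_db9399_exp_helper75.T3

/-!
# Block TASK of THEOREM EXP, the loads of the missed vertices (helper75)
-/

set_option autoImplicit false
set_option linter.unusedSectionVars false
set_option linter.unusedVariables false

namespace Pool.Agent.Work.MP_db9399_exp.helper75

open Finset Classical
open Pool.Agent.Work.MP_db9399_all (nb mis)
open Pool.Agent.Work.MP_db9399_qr (cov PEC ins sd PMat W0 imb ZQ Good)
open _root_.MP_db9399_co

universe u

section ctx
variable {m r : ℕ} {V : Type u} [Fintype V] {k d : ℕ} {G : SimpleGraph V} {U : Finset V}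
  {F : V → Finset (Fin k)} {X : Ctx m r k d G U F} {I : Ins X}

theorem imb_empty : imb X.side (∅ : Finset V) = 0 := by
  simp [imb]

theorem z_0 {b : Fin k} (hb : b ∉ X.Ga ∪ X.Pe) : zz X I (Sum.inl b) = 0 := by
  simp only [zz, W, if_neg hb, imb_empty, Int.natAbs_zero]

theorem z_P : ((∑ b ∈ X.Pe, zz X I (Sum.inl b) : ℕ) : ℝ) ≤
    X.g / (100 * (2 * m + 1)) * Fintype.card V := by
  refine le_trans (le_of_eq ?_) I.imbP
  push_cast
  refine Finset.sum_congr rfl fun b hb => ?_
  have h1 : b ∈ X.Ga ∪ X.Pe := Finset.mem_union_right _ hb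
  simp only [zz, W, if_pos h1]
  rw [Nat.cast_natAbs, Int.cast_abs]

theorem ZQ_sub (L : Finset (Fin k)) (j : Fin 4) : ZQ X.side F L j ⊆ U := by
  intro v hv
  by_contra hU
  simp only [ZQ, Finset.mem_filter, Finset.mem_univ, true_and] at hv
  rw [X.F0 v hU] at hv
  simp at hv

/-- imbalance of a disjoint union -/
theorem imb_union {A B : Finset V} (h : Disjoint A B) :
    imb X.side (A ∪ B) = imb X.side A + imb X.side B := by
  have h1 : ∀ s, ((A ∪ B) ∩ sd X.side s).card = (A ∩ sd X.side s).card +
      (B ∩ sd X.side s).card := by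
    intro s
    rw [Finset.union_inter_distrib_right, Finset.card_union_of_disjoint]
    exact Finset.disjoint_of_subset_left Finset.inter_subset_left
      (Finset.disjoint_of_subset_right Finset.inter_subset_left h)
  unfold imb
  rw [h1, h1]
  push_cast
  ring

theorem imb_abs (A : Finset V) : |imb X.side A| ≤ A.card := by
  have h4 : (A ∩ sd X.side true).card + (A ∩ sd X.side false).card ≤ A.card := by
    rw [← Finset.card_union_of_disjoint]
    · refine Finset.card_le_card fun v hv => ?_
      simp only [Finset.mem_union, Finset.mem_inter] at hv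
      rcases hv with h | h
      · exact h.1
      · exact h.1
    · rw [Finset.disjoint_left]
      intro v hv hv'
      simp only [Finset.mem_inter, sd, Finset.mem_filter, Finset.mem_univ, true_and] at hv hv'
      rw [hv.2] at hv'
      exact absurd hv'.2 (by simp)
  unfold imb
  rw [abs_le]
  constructor <;> omega

/-- imbalance of a union of columns of atoms -/
theorem imb_cls (T : Finset (ZMod (2 * r + 1))) :
    imb X.side (univ.filter (fun v => v ∉ U ∧ X.sub v ∈ T)) =
      ∑ i : ZMod (2 * m + 1), ∑ s ∈ T,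
        (((cls U X.at' {((true, i, s) : Atom m r)}).card : ℤ) -
          (cls U X.at' {((false, i, s) : Atom m r)}).card) := by
  have h1 : ∀ sd', ((univ.filter (fun v => v ∉ U ∧ X.sub v ∈ T)) ∩ sd X.side sd').card =
      ∑ i : ZMod (2 * m + 1), ∑ s ∈ T, (cls U X.at' {((sd', i, s) : Atom m r)}).card := by
    intro sd'
    rw [← Finset.sum_product', Finset.card_eq_sum_card_fiberwise
      (f := fun v => (X.cell v, X.sub v)) (t := (univ : Finset (ZMod (2 * m + 1))) ×ˢ T)]
    · refine Finset.sum_congr rfl fun a ha => ?_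
      congr 1
      ext v
      simp only [sd, cls, Finset.mem_filter, Finset.mem_inter, Finset.mem_univ, true_and,
        Finset.mem_singleton, Ctx.at', Prod.ext_iff]
      rw [Finset.mem_product] at ha
      constructor
      · rintro ⟨⟨⟨h1, h2⟩, h3⟩, h4, h5⟩
        exact ⟨h1, h3, h4, h5⟩
      · rintro ⟨h1, h3, h4, h5⟩
        exact ⟨⟨⟨h1, h5 ▸ ha.2⟩, h3⟩, h4, h5⟩
    · intro v hv
      have := Finset.mem_coe.1 hv
      simp only [sd, Finset.mem_filter, Finset.mem_inter, Finset.mem_univ, true_and] at this
      rw [Finset.mem_coe, Finset.mem_product]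
      exact ⟨Finset.mem_univ _, this.1.2⟩
  unfold imb
  rw [h1, h1]
  push_cast
  rw [← Finset.sum_sub_distrib]
  refine Finset.sum_congr rfl fun i _ => ?_
  rw [← Finset.sum_sub_distrib]

theorem imb_col (T : Finset (ZMod (2 * r + 1))) :
    0 ≤ imb X.side (univ.filter (fun v => v ∉ U ∧ X.sub v ∈ T)) ∧
    imb X.side (univ.filter (fun v => v ∉ U ∧ X.sub v ∈ T)) ≤ 1 := by
  have hnn : ∀ (i : ZMod (2 * m + 1)) (s : ZMod (2 * r + 1)),
      0 ≤ (((cls U X.at' {((true, i, s) : Atom m r)}).card : ℤ) -
        (cls U X.at' {((false, i, s) : Atom m r)}).card) := by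
    intro i s
    have : (cls U X.at' {((false, i, s) : Atom m r)}).card ≤
        (cls U X.at' {((true, i, s) : Atom m r)}).card := X.atle i s
    omega
  constructor
  · rw [imb_cls]
    exact Finset.sum_nonneg fun i _ => Finset.sum_nonneg fun s _ => hnn i s
  · have h1 : imb X.side (univ.filter (fun v => v ∉ U ∧ X.sub v ∈ T)) ≤
        imb X.side (univ.filter (fun v => v ∉ U ∧ X.sub v ∈ (univ : Finset (ZMod (2 * r + 1))))) := by
      rw [imb_cls, imb_cls]
      refine Finset.sum_le_sum fun i _ => ?_
      exact Finset.sum_le_sum_of_subset_of_nonneg (Finset.subset_univ _) (fun s _ _ => hnn i s)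
    refine h1.trans ?_
    have h2 := X.sides
    have h3 := X.Ueq
    have h4 := X.p1
    have h5 : ∀ s, ((univ.filter (fun v => v ∉ U ∧
        X.sub v ∈ (univ : Finset (ZMod (2 * r + 1))))) ∩ sd X.side s).card +
        (univ.filter (fun u => u ∈ U ∧ X.side u = s)).card = (sd X.side s).card := by
      intro s
      rw [← Finset.card_union_of_disjoint]
      · congr 1
        ext v
        simp only [sd, Finset.mem_union, Finset.mem_inter, Finset.mem_filter, Finset.mem_univ,
          true_and, and_true]
        tauto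
      · rw [Finset.disjoint_left]
        intro v hv hv'
        simp only [Finset.mem_inter, Finset.mem_filter] at hv hv'
        exact hv.1.2.1 hv'.2.1
    have h6 := h5 true
    have h7 := h5 false
    unfold imb
    omega

theorem z_R (j : Fin 4) : zz X I (Sum.inr j) ≤ 1 + U.card := by
  -- the ordinary part and the part in `U`
  obtain ⟨T, hT⟩ : ∃ T : Finset (ZMod (2 * r + 1)), ∀ v, v ∉ U →
      ((j.val % 2 = 0 → v ∈ U ∨ X.c v ∈ X.Ga) ↔ X.sub v ∈ T) := by
    by_cases hj : j.val % 2 = 0
    · refine ⟨X.GS, fun v hv => ?_⟩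
      rcases c_cases (X := X) hv with h | h
      · exact ⟨fun _ => h.1, fun _ _ => Or.inr h.2⟩
      · constructor
        · intro h'
          rcases h' hj with h1 | h1
          · exact absurd h1 hv
          · exact absurd (Finset.mem_union_left _ h1) h.2
        · intro h'
          exact absurd h' h.1
    · exact ⟨univ, fun v hv => ⟨fun _ => Finset.mem_univ _, fun _ h => absurd h hj⟩⟩
  have h1 : Wq X j = (univ.filter (fun v => v ∉ U ∧ X.sub v ∈ T)) ∪
      (Wq X j ∩ U) := by
    ext v
    simp only [Finset.mem_union, Finset.mem_filter, Finset.mem_univ, true_and, Finset.mem_inter]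
    by_cases hU : v ∈ U
    · simp [hU]
    · simp only [hU, not_false_eq_true, true_and, and_false, or_false]
      rw [← hT v hU]
      unfold Wq
      rw [Finset.mem_filter]
      constructor
      · rintro ⟨_, _, h⟩
        exact h
      · intro h
        exact ⟨Finset.mem_univ _, fun h' => hU (ZQ_sub _ _ h'), h⟩
  have h2 : Disjoint (univ.filter (fun v => v ∉ U ∧ X.sub v ∈ T)) (Wq X j ∩ U) := by
    rw [Finset.disjoint_left]
    intro v hv hv'
    simp only [Finset.mem_filter] at hv
    exact hv.2.1 (Finset.mem_inter.1 hv').2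
  have h3 := imb_union (X := X) h2
  rw [← h1] at h3
  have h4 := imb_col (X := X) T
  have h5 := abs_le.1 (imb_abs (X := X) (Wq X j ∩ U))
  have h6 : ((Wq X j ∩ U).card : ℤ) ≤ U.card := by
    exact_mod_cast Finset.card_le_card Finset.inter_subset_right
  simp only [zz, W]
  omega

/-- the sum over the colours of `Ga` idle on the larger side in the cell -/
theorem z_Ga (s : Bool) (κ : ZMod (2 * m + 1)) :
    (∑ b ∈ (GG X s κ).filter (fun b => sg X I (Sum.inl b) = s), zz X I (Sum.inl b)) ≤
      (2 * m + 1) * ((2 * r + 1) * X.u + 1) := by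
  have hW : ∀ b ∈ X.Ga, W X I (Sum.inl b) = W0 X.R U F X.c I.t b := by
    intro b hb
    simp only [W, if_pos (Finset.mem_union_left _ hb : b ∈ X.Ga ∪ X.Pe)]
  have h1 : (∑ b ∈ (GG X s κ).filter (fun b => sg X I (Sum.inl b) = s),
      (zz X I (Sum.inl b) : ℤ)) ≤ ∑ j : ZMod (2 * m + 1),
      ∑ b ∈ (GG X s κ).filter (fun b => (if s = true then X.gj b else X.gi b) = j),
        max (if s = true then imb X.side (W0 X.R U F X.c I.t b) else
          -(imb X.side (W0 X.R U F X.c I.t b))) 0 := by
    rw [Finset.sum_fiberwise (GG X s κ) (fun b => (if s = true then X.gj b else X.gi b))]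
    have h2 : ∀ b ∈ (GG X s κ).filter (fun b => sg X I (Sum.inl b) = s),
        (zz X I (Sum.inl b) : ℤ) ≤ max (if s = true then imb X.side (W0 X.R U F X.c I.t b) else
          -(imb X.side (W0 X.R U F X.c I.t b))) 0 := by
      intro b hb
      rw [Finset.mem_filter] at hb
      have hbG : b ∈ X.Ga := (Finset.mem_filter.1 hb.1).1
      have h3 := hb.2
      unfold sg at h3
      rw [hW b hbG] at h3
      simp only [zz, hW b hbG]
      cases s with
      | true =>
        rw [decide_eq_true_eq] at h3
        rw [if_pos rfl]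
        omega
      | false =>
        rw [decide_eq_false_iff_not] at h3
        rw [if_neg (by simp)]
        omega
    refine (Finset.sum_le_sum h2).trans ?_
    exact Finset.sum_le_sum_of_subset_of_nonneg (Finset.filter_subset _ _)
      (fun _ _ _ => le_max_right _ _)
  have h2 : ∀ j : ZMod (2 * m + 1),
      ∑ b ∈ (GG X s κ).filter (fun b => (if s = true then X.gj b else X.gi b) = j),
        max (if s = true then imb X.side (W0 X.R U F X.c I.t b) else
          -(imb X.side (W0 X.R U F X.c I.t b))) 0 ≤ (2 * r + 1) * X.u + 1 := by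
    intro j
    cases s with
    | true =>
      refine le_trans (le_of_eq ?_) (I.imbp κ j)
      refine Finset.sum_congr ?_ fun b _ => ?_
      · ext b
        simp only [GG, Finset.mem_filter, if_true]
        tauto
      · rw [if_pos rfl]
    | false =>
      refine le_trans (le_of_eq ?_) (I.imbn j κ)
      refine Finset.sum_congr ?_ fun b _ => ?_
      · ext b
        simp only [GG, Finset.mem_filter, Bool.false_eq_true, if_false]
        tauto
      · rw [if_neg (by simp)]
  have h3 := h1.trans (Finset.sum_le_card_nsmul _ _ _ fun j _ => h2 j)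
  rw [Finset.card_univ, ZMod.card, nsmul_eq_mul] at h3
  exact_mod_cast h3

/-- the load -/
theorem zsum (X : Ctx m r k d G U F) (I : Ins X) (t : Fin k ⊕ Fin 4) :
    ((∑ t' ∈ univ.filter (fun t' => ¬ Disjoint (Cand X I t') (Cand X I t)), zz X I t' : ℕ) : ℝ) ≤
      (2 * (m : ℝ) + 1) * ((2 * (r : ℝ) + 1) * X.u + 1) +
        X.g / (100 * (2 * m + 1)) * Fintype.card V + 4 * (1 + U.card) := by
  rw [Finset.sum_filter, Fintype.sum_sum_type]
  have h1 : ∑ b : Fin k, (if ¬ Disjoint (Cand X I (Sum.inl b)) (Cand X I t) then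
      zz X I (Sum.inl b) else 0) ≤
      (∑ b ∈ (GG X (sg X I t) (kap X I t)).filter (fun b => sg X I (Sum.inl b) = sg X I t),
        zz X I (Sum.inl b)) + ∑ b ∈ X.Pe, zz X I (Sum.inl b) := by
    have h2 : ∀ b : Fin k, (if ¬ Disjoint (Cand X I (Sum.inl b)) (Cand X I t) then
      zz X I (Sum.inl b) else 0) ≤
      (if b ∈ (GG X (sg X I t) (kap X I t)).filter (fun b => sg X I (Sum.inl b) = sg X I t) then
        zz X I (Sum.inl b) else 0) +
      (if b ∈ X.Pe then zz X I (Sum.inl b) else 0) := by
      intro b
      by_cases hbG : b ∈ X.Ga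
      · by_cases hdis : Disjoint (Cand X I (Sum.inl b)) (Cand X I t)
        · rw [if_neg (not_not.2 hdis)]
          exact Nat.zero_le _
        · rw [if_pos hdis]
          obtain ⟨v, hv, hv'⟩ := Finset.not_disjoint_iff.1 hdis
          simp only [Cand, Finset.mem_filter, Finset.mem_univ, true_and] at hv hv'
          have hsg : sg X I (Sum.inl b) = sg X I t := hv.1.symm.trans hv'.1
          have h3 : b ∈ (GG X (sg X I t) (kap X I t)).filter
              (fun b => sg X I (Sum.inl b) = sg X I t) := by
            simp only [GG, Finset.mem_filter]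
            refine ⟨⟨hbG, ?_⟩, hsg⟩
            rw [← hv'.2.1, hv.2.1, kap_G hbG, hsg]
          rw [if_pos h3]
          exact Nat.le_add_right _ _
      · by_cases hb : b ∈ X.Pe
        · rw [if_pos hb]
          split_ifs <;> omega
        · have hb2 : b ∉ X.Ga ∪ X.Pe := by
            rw [Finset.mem_union]
            tauto
          rw [z_0 hb2]
          split_ifs <;> omega
    refine (Finset.sum_le_sum fun b _ => h2 b).trans ?_
    rw [Finset.sum_add_distrib]
    refine Nat.add_le_add ?_ ?_
    · rw [Finset.sum_ite_mem, Finset.univ_inter]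
    · rw [Finset.sum_ite_mem, Finset.univ_inter]
  have h4 : ∑ j : Fin 4, (if ¬ Disjoint (Cand X I (Sum.inr j)) (Cand X I t) then
      zz X I (Sum.inr j) else 0) ≤ 4 * (1 + U.card) := by
    refine (Finset.sum_le_card_nsmul _ _ (1 + U.card) fun j _ => ?_).trans (by simp)
    split_ifs
    · exact Nat.zero_le _
    · exact z_R j
  have h5 := z_Ga (X := X) (I := I) (sg X I t) (kap X I t)
  have h6 : ((∑ b : Fin k, (if ¬ Disjoint (Cand X I (Sum.inl b)) (Cand X I t) then
      zz X I (Sum.inl b) else 0) : ℕ) : ℝ) ≤ (((2 * m + 1) * ((2 * r + 1) * X.u + 1) : ℕ) : ℝ) +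
      ((∑ b ∈ X.Pe, zz X I (Sum.inl b) : ℕ) : ℝ) := by
    exact_mod_cast h1.trans (Nat.add_le_add_right h5 _)
  have h7 : ((∑ j : Fin 4, (if ¬ Disjoint (Cand X I (Sum.inr j)) (Cand X I t) then
      zz X I (Sum.inr j) else 0) : ℕ) : ℝ) ≤ ((4 * (1 + U.card) : ℕ) : ℝ) := by exact_mod_cast h4
  have h8 := z_P (X := X) (I := I)
  rw [Nat.cast_add]
  push_cast at h6 h7 h8 ⊢
  linarith

end ctx

end Pool.Agent.Work.MP_db9399_exp.helper75
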